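import Mathlib
import Pool.Agent.H.MP_95c08c_lc.Select

/-!
A numbering of the recursive functionals with an oracle (their values may be undefined).
-/

set_option linter.all false

namespace Pool.Agent.H.MP_8387fc_lc.BA

open Nat.Partrec (Code)
open Pool.Agent.H.MP_95c08c_lc

/-- Step `p` of the computation number `e` with oracle `x` and input `n`: with `p = ⟨s, k⟩`, run
the program number `e` for `s` steps on the input `(x ↾ k, n)`. -/
def step (e : ℕ) (x : ℕ → Bool) (n p : ℕ) : Option ℕ :=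
  Code.evaln p.unpair.1 (Denumerable.ofNat Code e) (Encodable.encode (pre x p.unpair.2, n))

/-- The functional number `e` with oracle `x` and input `n`: the output of the first step which
has an output (undefined if there is no such step). -/
def Phi (e : ℕ) (x : ℕ → Bool) (n : ℕ) : Part ℕ := Nat.rfindOpt (step e x n)

/-- `x` computes `y` via `e`. -/
def Via (e : ℕ) (x y : ℕ → Bool) : Prop := ∀ n, Phi e x n = Part.some (y n).toNat

/-- `y` is Turing reducible to `x`. -/
def Red (y x : ℕ → Bool) : Prop := TuringReducible (orc y) (orc x)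

theorem mem_Phi {e : ℕ} {x : ℕ → Bool} {n v : ℕ} :
    v ∈ Phi e x n ↔ ∃ p, step e x n p = some v ∧ ∀ q < p, step e x n q = none := by
  unfold Phi Nat.rfindOpt
  rw [Part.mem_bind_iff]
  constructor
  · rintro ⟨p, hp, hv⟩
    refine ⟨p, by simpa using hv, fun q hq => ?_⟩
    have h := (Nat.mem_rfind.1 hp).2 hq
    simpa using h
  · rintro ⟨p, h1, h2⟩
    refine ⟨p, Nat.mem_rfind.2 ⟨by simp [h1], fun {q} hq => by simp [h2 q hq]⟩, by simp [h1]⟩

/-- The finite approximation of the functionals. -/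
def PS (z : List Bool × (ℕ × ℕ × ℕ)) : Prop :=
  ∃ p < z.1.length + 1, (Code.evaln p.unpair.1 (Denumerable.ofNat Code z.2.1)
      (Encodable.encode (z.1.take p.unpair.2, z.2.2.1)) = some z.2.2.2 ∧
    ¬ ∃ q < p, ¬ Code.evaln q.unpair.1 (Denumerable.ofNat Code z.2.1)
      (Encodable.encode (z.1.take q.unpair.2, z.2.2.1)) = none)

theorem primrec_stp : Primrec fun y : (List Bool × (ℕ × ℕ × ℕ)) × ℕ =>
    Code.evaln y.2.unpair.1 (Denumerable.ofNat Code y.1.2.1)
      (Encodable.encode (y.1.1.take y.2.unpair.2, y.1.2.2.1)) := by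
  have a1 : Primrec fun y : (List Bool × (ℕ × ℕ × ℕ)) × ℕ => y.2.unpair.1 :=
    Primrec.fst.comp (Primrec.unpair.comp Primrec.snd)
  have a2 : Primrec fun y : (List Bool × (ℕ × ℕ × ℕ)) × ℕ => y.2.unpair.2 :=
    Primrec.snd.comp (Primrec.unpair.comp Primrec.snd)
  have a3 : Primrec fun y : (List Bool × (ℕ × ℕ × ℕ)) × ℕ => y.1.2.1 :=
    Primrec.fst.comp (Primrec.snd.comp Primrec.fst)
  have a4 : Primrec fun y : (List Bool × (ℕ × ℕ × ℕ)) × ℕ => y.1.2.2.1 :=
    Primrec.fst.comp (Primrec.snd.comp (Primrec.snd.comp Primrec.fst))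
  have a5 : Primrec fun y : (List Bool × (ℕ × ℕ × ℕ)) × ℕ => y.1.1 :=
    Primrec.fst.comp Primrec.fst
  refine Code.primrec_evaln.comp ((a1.pair ((Primrec.ofNat Code).comp a3)).pair ?_)
  exact Primrec.encode.comp ((Primrec.list_take.comp a2 a5).pair a4)

theorem primrec_PS : PrimrecPred PS := by
  have h1 : PrimrecPred fun y : (List Bool × (ℕ × ℕ × ℕ)) × ℕ =>
      ¬ ∃ q < y.2, ¬ Code.evaln q.unpair.1 (Denumerable.ofNat Code y.1.2.1)
      (Encodable.encode (y.1.1.take q.unpair.2, y.1.2.2.1)) = none := by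
    apply PrimrecPred.not
    refine primrecPred_exists_lt (P := fun y : (List Bool × (ℕ × ℕ × ℕ)) × ℕ =>
      ¬ Code.evaln y.2.unpair.1 (Denumerable.ofNat Code y.1.2.1)
      (Encodable.encode (y.1.1.take y.2.unpair.2, y.1.2.2.1)) = none) ?_
    exact PrimrecPred.not (Primrec.eq.comp primrec_stp (Primrec.const none))
  have h2 : PrimrecPred fun y : (List Bool × (ℕ × ℕ × ℕ)) × ℕ =>
      Code.evaln y.2.unpair.1 (Denumerable.ofNat Code y.1.2.1)
      (Encodable.encode (y.1.1.take y.2.unpair.2, y.1.2.2.1)) = some y.1.2.2.2 :=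
    Primrec.eq.comp primrec_stp (Primrec.option_some.comp
      (Primrec.snd.comp (Primrec.snd.comp (Primrec.snd.comp Primrec.fst))))
  have h3 := primrecPred_exists_lt (h2.and h1)
  exact h3.comp (f := fun z : List Bool × (ℕ × ℕ × ℕ) => (z, z.1.length + 1))
    (Primrec.id.pair (Primrec.succ.comp (Primrec.list_length.comp Primrec.fst)))

theorem PS_pre {x : ℕ → Bool} {k e n v : ℕ} : PS (pre x k, (e, n, v)) ↔
    ∃ p ≤ k, step e x n p = some v ∧ ∀ q < p, step e x n q = none := by
  unfold PS step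
  simp only [pre_length, pre_take, not_exists, not_and, not_not, Nat.lt_succ_iff]
  constructor
  · rintro ⟨p, hp, h1, h2⟩
    have e1 : min p.unpair.2 k = p.unpair.2 := min_eq_left ((Nat.unpair_right_le p).trans hp)
    rw [e1] at h1
    refine ⟨p, hp, h1, fun q hq => ?_⟩
    have e2 : min q.unpair.2 k = q.unpair.2 :=
      min_eq_left ((Nat.unpair_right_le q).trans (hq.le.trans hp))
    have := h2 q hq
    rwa [e2] at this
  · rintro ⟨p, hp, h1, h2⟩
    have e1 : min p.unpair.2 k = p.unpair.2 := min_eq_left ((Nat.unpair_right_le p).trans hp)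
    refine ⟨p, hp, by rw [e1]; exact h1, fun q hq => ?_⟩
    have e2 : min q.unpair.2 k = q.unpair.2 :=
      min_eq_left ((Nat.unpair_right_le q).trans (hq.le.trans hp))
    rw [e2]
    exact h2 q hq

theorem PS_mono {x : ℕ → Bool} {k l : ℕ} {z : ℕ × ℕ × ℕ} (h : k ≤ l)
    (hz : PS (pre x k, z)) : PS (pre x l, z) := by
  obtain ⟨e, n, v⟩ := z
  rw [PS_pre] at hz ⊢
  obtain ⟨p, hp, h1⟩ := hz
  exact ⟨p, hp.trans h, h1⟩

theorem mem_Phi_iff {x : ℕ → Bool} {e n v : ℕ} :
    v ∈ Phi e x n ↔ ∃ k, PS (pre x k, (e, n, v)) := by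
  rw [mem_Phi]
  constructor
  · rintro ⟨p, h1, h2⟩
    exact ⟨p, PS_pre.2 ⟨p, le_rfl, h1, h2⟩⟩
  · rintro ⟨k, hk⟩
    obtain ⟨p, -, h1, h2⟩ := PS_pre.1 hk
    exact ⟨p, h1, h2⟩

theorem ceIn_Phi (x : ℕ → Bool) : CEIn x (fun z : ℕ × ℕ × ℕ => z.2.2 ∈ Phi z.1 x z.2.1) :=
  ⟨PS, CE.of_primrec primrec_PS, fun ⟨e, n, v⟩ => mem_Phi_iff⟩

/-- The s-m-n theorem in a relational form. -/
theorem exists_index_prim {α : Type} [Primcodable α] {R : (α × (List Bool × ℕ)) × ℕ → Prop}
    (hR : CE R) : ∃ s : α → ℕ, Primrec s ∧ (∀ a x n v,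
      (∀ k y, R ((a, (pre x k, n)), y) → y = v) → (∃ k, R ((a, (pre x k, n)), v)) →
        Phi (s a) x n = Part.some v) ∧
      ∀ a x n v, v ∈ Phi (s a) x n → ∃ k, R ((a, (pre x k, n)), v) := by
  obtain ⟨g, hg, h1, h2⟩ := hR.uniformize
  obtain ⟨c, hc⟩ := Code.exists_code.1 hg
  have hc' : ∀ (a : α) (σ : List Bool) (n v : ℕ),
      v ∈ Code.eval (Code.curry c (Encodable.encode a)) (Encodable.encode (σ, n)) ↔
        v ∈ g (a, (σ, n)) := by
    intro a σ n v
    rw [Code.eval_curry]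
    have e1 : Nat.pair (Encodable.encode a) (Encodable.encode (σ, n)) =
      Encodable.encode (a, (σ, n)) := rfl
    rw [e1, hc]
    simp only [Encodable.encodek, Part.coe_some, Part.bind_some, Part.mem_map_iff]
    constructor
    · rintro ⟨b, hb, e⟩
      have : b = v := e
      exact this ▸ hb
    · intro h
      exact ⟨v, h, rfl⟩
  refine ⟨fun a => Encodable.encode (Code.curry c (Encodable.encode a)), ?_, ?_, ?_⟩
  · exact Primrec.encode.comp (Code.primrec₂_curry.comp (Primrec.const c) Primrec.encode)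
  · intro a x n v hs hk
    have hsound : ∀ p y, step (Encodable.encode (Code.curry c (Encodable.encode a))) x n p
        = some y → y = v := by
      intro p y hp
      unfold step at hp
      rw [Denumerable.ofNat_encode] at hp
      have h3 := Code.evaln_sound hp
      exact hs _ _ (h1 _ _ ((hc' _ _ _ _).1 h3))
    have hex : ∃ p, (step (Encodable.encode (Code.curry c (Encodable.encode a))) x n p) ≠ none := by
      obtain ⟨k, hk⟩ := hk
      have hd := h2 (a, (pre x k, n)) ⟨v, hk⟩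
      have h3 := (hc' a (pre x k) n _).2 (Part.get_mem hd)
      obtain ⟨t, ht⟩ := Code.evaln_complete.1 h3
      refine ⟨Nat.pair t k, ?_⟩
      unfold step
      rw [Denumerable.ofNat_encode]
      simp only [Nat.unpair_pair]
      intro h0
      rw [h0] at ht
      simp at ht
    classical
    rw [Part.eq_some_iff, mem_Phi]
    refine ⟨Nat.find hex, ?_, fun q hq => by simpa using Nat.find_min hex hq⟩
    obtain ⟨y, hy⟩ := Option.ne_none_iff_exists'.1 (Nat.find_spec hex)
    rw [hy, hsound _ _ hy]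
  · intro a x n v hv
    obtain ⟨p, hp, -⟩ := mem_Phi.1 hv
    unfold step at hp
    rw [Denumerable.ofNat_encode] at hp
    have h3 := Code.evaln_sound hp
    exact ⟨_, h1 _ _ ((hc' _ _ _ _).1 h3)⟩

/-- The s-m-n theorem with a computable function. -/
theorem exists_index {α : Type} [Primcodable α] {R : (α × (List Bool × ℕ)) × ℕ → Prop}
    (hR : CE R) : ∃ s : α → ℕ, Computable s ∧ (∀ a x n v,
      (∀ k y, R ((a, (pre x k, n)), y) → y = v) → (∃ k, R ((a, (pre x k, n)), v)) →
        Phi (s a) x n = Part.some v) ∧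
      ∀ a x n v, v ∈ Phi (s a) x n → ∃ k, R ((a, (pre x k, n)), v) := by
  obtain ⟨s, hs, h⟩ := exists_index_prim hR
  exact ⟨s, hs.to_comp, h⟩

theorem red_of_via {e : ℕ} {x y : ℕ → Bool} (h : Via e x y) : Red y x := by
  have h1 : CEIn x (fun z : ℕ × ℕ => z.2 ∈ orc y z.1) := by
    have h2 := (ceIn_Phi x).comp (f := fun z : ℕ × ℕ => (e, z.1, z.2))
      ((Primrec.const e).pair (Primrec.fst.pair Primrec.snd))
    refine h2.of_eq fun z => ?_
    simp only [h z.1]
    rfl
  exact recursiveIn_of_ceIn h1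

theorem via_of_red {x y : ℕ → Bool} (h : Red y x) : ∃ e, Via e x y := by
  obtain ⟨R, hR, hS⟩ := CEIn.graph (α := ℕ) (β := ℕ) (f := orc y) (X := x) h
  obtain ⟨s, -, hs, -⟩ := exists_index (α := Unit)
    (R := fun z : (Unit × (List Bool × ℕ)) × ℕ => R (z.1.2.1, (z.1.2.2, z.2)))
    (hR.comp (f := fun z : (Unit × (List Bool × ℕ)) × ℕ => (z.1.2.1, (z.1.2.2, z.2)))
      ((Primrec.fst.comp (Primrec.snd.comp Primrec.fst)).pair
        ((Primrec.snd.comp (Primrec.snd.comp Primrec.fst)).pair Primrec.snd)))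
  refine ⟨s (), fun n => hs () x n _ ?_ ?_⟩
  · intro k v hv
    have h1 : v ∈ orc y n := (hS (n, v)).2 ⟨k, hv⟩
    exact Part.mem_some_iff.1 h1
  · exact (hS (n, (y n).toNat)).1 (Part.mem_some _)

theorem red_iff {x y : ℕ → Bool} : Red y x ↔ ∃ e, Via e x y :=
  ⟨via_of_red, fun ⟨_, h⟩ => red_of_via h⟩

theorem Red.refl (x : ℕ → Bool) : Red x x := TuringReducible.refl _

theorem Red.trans {x y z : ℕ → Bool} (h1 : Red x y) (h2 : Red y z) : Red x z :=
  TuringReducible.trans h1 h2

/-- The join of two reals. -/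
def join (x y : ℕ → Bool) : ℕ → Bool := fun n => bif n.bodd then y n.div2 else x n.div2

theorem join_even (x y : ℕ → Bool) (n : ℕ) : join x y (2 * n) = x n := by
  simp [join, Nat.div2_val]

theorem join_odd (x y : ℕ → Bool) (n : ℕ) : join x y (2 * n + 1) = y n := by
  have h : (2 * n + 1) / 2 = n := by omega
  simp [join, Nat.div2_val, h]

theorem ceIn_of_red {α : Type} [Primcodable α] {x w : ℕ → Bool} {S : α → Prop}
    (hS : CEIn x S) (h : Red x w) : CEIn w S := by
  obtain ⟨R, hR, hSR⟩ := hS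
  have h1 : TuringReducible (fun k => Part.some (Encodable.encode (pre x k)) : ℕ →. ℕ) (orc x) :=
    RecursiveIn.iff_nat.2 TotIn.preCode
  have h2 : TuringReducible (fun k => Part.some (Encodable.encode (pre x k)) : ℕ →. ℕ) (orc w) :=
    h1.trans h
  have h3 : CEIn w (fun p : ℕ × ℕ => p.2 ∈ Part.some (Encodable.encode (pre x p.1))) :=
    CEIn.graph (X := w) (f := (fun k => Part.some (Encodable.encode (pre x k)) : ℕ →. ℕ)) h2
  have h4 : CEIn w (fun a => ∃ y : ℕ × List Bool,
      Encodable.encode y.2 ∈ Part.some (Encodable.encode (pre x y.1)) ∧ R (y.2, a)) := by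
    apply CEIn.ex (S := fun z : α × (ℕ × List Bool) =>
      Encodable.encode z.2.2 ∈ Part.some (Encodable.encode (pre x z.2.1)) ∧ R (z.2.2, z.1))
    refine CEIn.and ?_ (CEIn.of_ce ?_)
    · exact h3.comp (f := fun z : α × (ℕ × List Bool) => (z.2.1, Encodable.encode z.2.2))
        ((Primrec.fst.comp Primrec.snd).pair (Primrec.encode.comp (Primrec.snd.comp Primrec.snd)))
    · exact hR.comp ((Primrec.snd.comp Primrec.snd).pair Primrec.fst)
  refine h4.of_eq fun a => ?_
  rw [hSR]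
  constructor
  · rintro ⟨⟨k, σ⟩, h5, h6⟩
    have h7 := Encodable.encode_injective (Part.mem_some_iff.1 h5)
    simp only at h7 h6
    subst h7
    exact ⟨k, h6⟩
  · rintro ⟨k, hk⟩
    exact ⟨(k, pre x k), Part.mem_some _, hk⟩

theorem ceIn_orc (x : ℕ → Bool) : CEIn x (fun p : ℕ × ℕ => p.2 ∈ orc x p.1) :=
  CEIn.graph (X := x) (f := orc x) (Red.refl x)

theorem red_of_ceIn {x w : ℕ → Bool} (h : CEIn w (fun p : ℕ × ℕ => p.2 ∈ orc x p.1)) : Red x w :=
  recursiveIn_of_ceIn h

theorem red_join_left (x y : ℕ → Bool) : Red x (join x y) := by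
  apply red_of_ceIn
  refine ((ceIn_orc (join x y)).comp (f := fun p : ℕ × ℕ => (2 * p.1, p.2))
    ((Primrec.nat_mul.comp (Primrec.const 2) Primrec.fst).pair Primrec.snd)).of_eq fun p => ?_
  simp only [orc, join_even]

theorem red_join_right (x y : ℕ → Bool) : Red y (join x y) := by
  apply red_of_ceIn
  refine ((ceIn_orc (join x y)).comp (f := fun p : ℕ × ℕ => (2 * p.1 + 1, p.2))
    ((Primrec.succ.comp (Primrec.nat_mul.comp (Primrec.const 2) Primrec.fst)).pair
      Primrec.snd)).of_eq fun p => ?_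
  simp only [orc, join_odd]

theorem join_red {x y w : ℕ → Bool} (hx : Red x w) (hy : Red y w) : Red (join x y) w := by
  apply red_of_ceIn
  have h1 : CEIn w (fun p : ℕ × ℕ => p.2 ∈ orc x p.1) := ceIn_of_red (ceIn_orc x) hx
  have h2 : CEIn w (fun p : ℕ × ℕ => p.2 ∈ orc y p.1) := ceIn_of_red (ceIn_orc y) hy
  have hd : Primrec fun p : ℕ × ℕ => (p.1.div2, p.2) :=
    (Primrec.nat_div2.comp Primrec.fst).pair Primrec.snd
  have hb : Primrec fun p : ℕ × ℕ => p.1.bodd := Primrec.nat_bodd.comp Primrec.fst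
  have h3 : CEIn w (fun p : ℕ × ℕ => (p.1.bodd = false ∧ p.2 ∈ orc x p.1.div2) ∨
      (p.1.bodd = true ∧ p.2 ∈ orc y p.1.div2)) :=
    ((CEIn.of_primrec (Primrec.eq.comp hb (Primrec.const false))).and (h1.comp hd)).or
      ((CEIn.of_primrec (Primrec.eq.comp hb (Primrec.const true))).and (h2.comp hd))
  refine h3.of_eq fun p => ?_
  cases h : p.1.bodd <;> simp [orc, join, h]

end Pool.Agent.H.MP_8387fc_lc.BA
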