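import Mathlib
import Pool.Agent.H.MP_8387fc_lc.BA.Basic

/-!
The nonspeedup argument relative to an oracle.
-/

set_option linter.all false

namespace Pool.Agent.H.MP_8387fc_lc.BA

open Nat.Partrec (Code)
open Pool.Agent.H.MP_95c08c_lc

theorem encard_image_lt {α β : Type} {s : Set α} {g : α → β} {k : ℕ} (hs : s.encard ≤ (k + 1 : ℕ))
    {v v' : α} (hv : v ∈ s) (hv' : v' ∈ s) (hne : v ≠ v') (he : g v = g v') :
    (g '' s).encard ≤ k := by
  classical
  have h1 : g '' s = g '' (s \ {v'}) := by
    apply Set.Subset.antisymm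
    · rintro _ ⟨a, ha, rfl⟩
      by_cases h : a = v'
      · subst h
        exact ⟨v, ⟨hv, by simpa using hne⟩, he⟩
      · exact ⟨a, ⟨ha, by simpa using h⟩, rfl⟩
    · exact Set.image_mono Set.diff_subset
  rw [h1]
  refine (Set.encard_image_le g _).trans ?_
  have h2 := Set.encard_diff_singleton_add_one hv'
  rw [← h2] at hs
  have h3 : (s \ {v'}).encard + 1 ≤ (k : ℕ∞) + 1 := by
    simpa using hs
  exact (ENat.add_le_add_iff_right (by simp)).1 h3

/-- If the `k`-tuples of bits of `z` have at most `k` candidates, enumerated relative to `w` and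
including the true tuple, then `z` is computable from `w`. -/
theorem nonspeedup {w z : ℕ → Bool} : ∀ (k : ℕ) (R : List ℕ × List Bool → Prop),
    CEIn w R → (∀ m : List ℕ, m.length = k → {v | R (m, v)}.encard ≤ k) →
    (∀ m : List ℕ, m.length = k → R (m, m.map z)) → Red z w := by
  intro k
  induction k with
  | zero =>
    intro R _ h1 h2
    exfalso
    have h3 := h1 [] rfl
    have h4 : ([] : List ℕ).map z ∈ {v | R ([], v)} := h2 [] rfl
    simp only [Nat.cast_zero, nonpos_iff_eq_zero, Set.encard_eq_zero] at h3
    rw [h3] at h4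
    exact h4
  | succ k ih =>
    intro R hR hs hc
    by_cases hA : ∀ t : List ℕ, t.length = k → ∃ q : ℕ,
        ∃ v : List Bool × List Bool, (R (q :: t, v.1) ∧ R (q :: t, v.2)) ∧
          (v.1 ≠ v.2 ∧ v.1.tail = v.2.tail)
    · -- one coordinate and one candidate can be dropped
      have hQ : CEIn w (fun x : List ℕ × ℕ =>
        ∃ v : List Bool × List Bool, (R (x.2 :: x.1, v.1) ∧ R (x.2 :: x.1, v.2)) ∧
          (v.1 ≠ v.2 ∧ v.1.tail = v.2.tail)) := by
        apply CEIn.ex (S := fun x : (List ℕ × ℕ) × (List Bool × List Bool) =>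
            (R (x.1.2 :: x.1.1, x.2.1) ∧
              R (x.1.2 :: x.1.1, x.2.2)) ∧ (x.2.1 ≠ x.2.2 ∧ x.2.1.tail = x.2.2.tail))
        have c0 : Primrec fun x : (List ℕ × ℕ) × (List Bool × List Bool) =>
            x.1.2 :: x.1.1 :=
          Primrec.list_cons.comp (Primrec.snd.comp Primrec.fst) (Primrec.fst.comp Primrec.fst)
        have c3 : Primrec fun x : (List ℕ × ℕ) × (List Bool × List Bool) => x.2.1 :=
          Primrec.fst.comp Primrec.snd
        have c4 : Primrec fun x : (List ℕ × ℕ) × (List Bool × List Bool) => x.2.2 :=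
          Primrec.snd.comp Primrec.snd
        refine CEIn.and (CEIn.and ?_ ?_) (CEIn.of_primrec ?_)
        · exact hR.comp (c0.pair c3)
        · exact hR.comp (c0.pair c4)
        · exact (Primrec.eq.comp c3 c4).not.and
            (Primrec.eq.comp (Primrec.list_tail.comp c3) (Primrec.list_tail.comp c4))
      obtain ⟨g, hg, hg1, hg2⟩ := hQ.select
      refine ih (fun x => ∃ y : ℕ × List Bool, y.1 ∈ g x.1 ∧
        (R (y.1 :: x.1, y.2) ∧ y.2.tail = x.2)) ?_ ?_ ?_
      · apply CEIn.ex (S := fun x : (List ℕ × List Bool) × (ℕ × List Bool) =>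
          x.2.1 ∈ g x.1.1 ∧ (R (x.2.1 :: x.1.1, x.2.2) ∧ x.2.2.tail = x.1.2))
        have d1 : Primrec fun x : (List ℕ × List Bool) × (ℕ × List Bool) => x.1.1 :=
          Primrec.fst.comp Primrec.fst
        have d2 : Primrec fun x : (List ℕ × List Bool) × (ℕ × List Bool) => x.2.1 :=
          Primrec.fst.comp Primrec.snd
        have d3 : Primrec fun x : (List ℕ × List Bool) × (ℕ × List Bool) => x.2.2 :=
          Primrec.snd.comp Primrec.snd
        refine CEIn.and ?_ (CEIn.and ?_ (CEIn.of_primrec ?_))
        · exact (CEIn.graph hg).comp (d1.pair d2)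
        · exact hR.comp ((Primrec.list_cons.comp d2 d1).pair d3)
        · exact Primrec.eq.comp (Primrec.list_tail.comp d3) (Primrec.snd.comp Primrec.fst)
      · intro t ht
        obtain ⟨q0, hq0⟩ := hA t ht
        have hd := hg2 t ⟨q0, hq0⟩
        have hq := hg1 t _ (Part.get_mem hd)
        have hmem := Part.get_mem hd
        set q := (g t).get hd
        obtain ⟨⟨v, v'⟩, ⟨hv, hv'⟩, hne, htl⟩ := hq
        simp only at hv hv' hne htl
        have h5 : {u | ∃ y : ℕ × List Bool, y.1 ∈ g t ∧ (R (y.1 :: t, y.2) ∧ y.2.tail = u)} =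
            List.tail '' {v | R (q :: t, v)} := by
          ext u
          constructor
          · rintro ⟨⟨q', u'⟩, h1, h2, h3⟩
            simp only at h1 h2 h3
            obtain rfl := Part.mem_unique h1 hmem
            exact ⟨u', h2, h3⟩
          · rintro ⟨u', h2, h3⟩
            exact ⟨(q, u'), hmem, h2, h3⟩
        rw [h5]
        exact encard_image_lt (hs (q :: t) (by simp [ht])) (g := List.tail) hv hv' hne htl
      · intro t ht
        obtain ⟨q0, hq0⟩ := hA t ht
        have hd := hg2 t ⟨q0, hq0⟩
        refine ⟨((g t).get hd, ((g t).get hd :: t).map z), Part.get_mem hd, ?_, by simp⟩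
        exact hc _ (by simp [ht])
    · -- all bits are decided
      push Not at hA
      obtain ⟨t, ht, hB⟩ := hA
      have hS : CEIn w (fun x : ℕ × ℕ => x.2 ∈ orc z x.1) := by
        have h1 : CEIn w (fun x : ℕ × ℕ => ∃ y : List Bool,
            (R (x.1 :: t, y) ∧ (y.tail = t.map z ∧ (y.headD false).toNat = x.2))) := by
          apply CEIn.ex (S := fun x : (ℕ × ℕ) × List Bool =>
            (R (x.1.1 :: t, x.2) ∧ (x.2.tail = t.map z ∧ (x.2.headD false).toNat = x.1.2)))
          have f3 : Primrec fun x : (ℕ × ℕ) × List Bool => (x.2.headD false).toNat := by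
            have f4 : Primrec fun x : (ℕ × ℕ) × List Bool =>
                (x.2.head?.getD false).toNat :=
              (Primrec.dom_bool Bool.toNat).comp
                (Primrec.option_getD.comp (Primrec.list_head?.comp Primrec.snd)
                  (Primrec.const false))
            refine f4.of_eq fun x => ?_
            cases x.2 <;> rfl
          refine CEIn.and ?_ (CEIn.and (CEIn.of_primrec ?_) (CEIn.of_primrec ?_))
          · exact hR.comp ((Primrec.list_cons.comp (Primrec.fst.comp Primrec.fst)
              (Primrec.const t)).pair Primrec.snd)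
          · exact Primrec.eq.comp (Primrec.list_tail.comp Primrec.snd) (Primrec.const _)
          · exact Primrec.eq.comp f3 (Primrec.snd.comp Primrec.fst)
        refine h1.of_eq ?_
        rintro ⟨m, b⟩
        simp only
        have hR0 := hc (m :: t) (by simp [ht])
        constructor
        · rintro ⟨v, hv, htl, rfl⟩
          have hvz : v = (m :: t).map z := by
            by_contra hne
            exact hB m (v, (m :: t).map z) ⟨hv, hR0⟩ hne (by simpa using htl)
          subst hvz
          simp [orc]
        · intro hb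
          refine ⟨(m :: t).map z, hR0, by simp, ?_⟩
          simp only [orc, Part.mem_some_iff] at hb
          rw [hb]
          simp
      exact recursiveIn_of_ceIn hS

end Pool.Agent.H.MP_8387fc_lc.BA
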