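import Mathlib
import Pool.Agent.H.MP_8387fc_lc.BA.Speedup

/-!
Boundedly ambiguous functions: the coding argument.
-/

set_option linter.all false

namespace Pool.Agent.H.MP_8387fc_lc.BA

open Nat.Partrec (Code)
open Pool.Agent.H.MP_95c08c_lc

/-- The program `e` with oracle `w` enumerates the string `σ`. -/
def Enum (e : ℕ) (w : ℕ → Bool) (σ : List Bool) : Prop := ∃ n, Encodable.encode σ ∈ Phi e w n

/-- There is a function `U`, computable in `a`, such that, whenever `x` and `y` are members of `S`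
which are Turing equivalent via `(i, j)`, the program `U i j` with oracle `f x` enumerates at most
`K` strings of length `L`, and one of them is the initial segment of length `L` of `f y`. -/
def AmbiguousAt (a : ℕ → Bool) (K L : ℕ) (S : Set (ℕ → Bool)) (f : (ℕ → Bool) → ℕ → Bool) :
    Prop :=
  ∃ U : ℕ → ℕ → ℕ, ComputableIn₂ {orc a} U ∧
    ∀ x ∈ S, ∀ y ∈ S, ∀ i j, Via i x y → Via j y x →
      {σ : List Bool | σ.length = L ∧ Enum (U i j) (f x) σ}.encard ≤ K ∧
        Enum (U i j) (f x) (pre (f y) L)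

/-- `f` is Turing invariant on `S` up to ambiguity `K` relative to `a`: `AmbiguousAt a K L S f`
for all `L`. -/
def AmbiguousIn (a : ℕ → Bool) (K : ℕ) (S : Set (ℕ → Bool)) (f : (ℕ → Bool) → ℕ → Bool) : Prop :=
  ∀ L, AmbiguousAt a K L S f

/-- The lists `U i j` contain correct guesses for `f` on `S`: whenever `x` and `y` are members of
`S` which are Turing equivalent via `(i, j)`, then `f x` computes `f y` via one of the indices in
the list `U i j`. -/
def Guesses (U : ℕ → ℕ → List ℕ) (S : Set (ℕ → Bool)) (f : (ℕ → Bool) → ℕ → Bool) : Prop :=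
  ∀ x ∈ S, ∀ y ∈ S, ∀ i j, Via i x y → Via j y x → ∃ e ∈ U i j, Via e (f x) (f y)

/-- Every function `U` is computable in some real. -/
theorem exists_oracle {β : Type} [Primcodable β] (U : ℕ → ℕ → β) :
    ∃ a : ℕ → Bool, ComputableIn₂ {orc a} U := by
  classical
  let a : ℕ → Bool := fun n =>
    decide (Encodable.encode (U n.unpair.1.unpair.1 n.unpair.1.unpair.2) = n.unpair.2)
  refine ⟨a, ?_⟩
  have h1 : CEIn a (fun p : (ℕ × ℕ) × β => p.2 ∈ (Part.some (U p.1.1 p.1.2))) := by
    have hf : Primrec fun p : (ℕ × ℕ) × β =>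
        (Nat.pair (Nat.pair p.1.1 p.1.2) (Encodable.encode p.2), true) :=
      (Primrec₂.natPair.comp (Primrec₂.natPair.comp (Primrec.fst.comp Primrec.fst)
        (Primrec.snd.comp Primrec.fst)) (Primrec.encode.comp Primrec.snd)).pair
        (Primrec.const true)
    refine ((CEIn.query (X := a)).comp hf).of_eq fun p => ?_
    simp only [a, Nat.unpair_pair, decide_eq_true_eq, Part.mem_some_iff,
      Encodable.encode_inj]
    exact eq_comm
  exact recursiveIn_of_ceIn h1

theorem exists_table {α β ι : Type} [Primcodable α] [Primcodable β] (b0 : β)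
    (key : ι → α) (val : ι → β) (S : Finset ι)
    (h : ∀ c ∈ S, ∀ c' ∈ S, key c = key c' → c = c') :
    ∃ t : α → β, Primrec t ∧ ∀ c ∈ S, t (key c) = val c := by
  classical
  induction S using Finset.induction_on with
  | empty => exact ⟨fun _ => b0, Primrec.const b0, fun c hc => by simp at hc⟩
  | insert c S hc ih =>
    obtain ⟨t, ht, hv⟩ := ih (fun a ha b hb => h a (Finset.mem_insert_of_mem ha) b
      (Finset.mem_insert_of_mem hb))
    refine ⟨fun a => if a = key c then val c else t a,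
      Primrec.ite (Primrec.eq.comp Primrec.id (Primrec.const (key c))) (Primrec.const _) ht, ?_⟩
    intro a ha
    rcases Finset.mem_insert.1 ha with rfl | ha'
    · simp
    · have hne : key a ≠ key c := by
        intro he
        have := h a ha c (Finset.mem_insert_self _ _) he
        exact hc (this ▸ ha')
      simp only [if_neg hne]
      exact hv a ha'

theorem exists_sep {ι : Type} (A : ι → ℕ → Bool) (S : Finset ι)
    (h : ∀ c ∈ S, ∀ c' ∈ S, A c = A c' → c = c') :
    ∃ L : ℕ, ∀ c ∈ S, ∀ c' ∈ S, (∀ n < L, A c n = A c' n) → c = c' := by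
  classical
  have h1 : ∀ p : ι × ι, ∃ n, p.1 ∈ S → p.2 ∈ S → A p.1 n = A p.2 n → p.1 = p.2 := by
    intro p
    by_cases hp : p.1 ∈ S ∧ p.2 ∈ S ∧ p.1 ≠ p.2
    · obtain ⟨hp1, hp2, hp3⟩ := hp
      have : A p.1 ≠ A p.2 := fun e => hp3 (h _ hp1 _ hp2 e)
      obtain ⟨n, hn⟩ := Function.ne_iff.1 this
      exact ⟨n, fun _ _ e => absurd e hn⟩
    · refine ⟨0, fun a b _ => ?_⟩
      by_contra hne
      exact hp ⟨a, b, hne⟩
  choose n hn using h1
  refine ⟨(S ×ˢ S).sup n + 1, fun c hc c' hc' he => ?_⟩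
  refine hn (c, c') hc hc' (he _ (Nat.lt_succ_of_le ?_))
  exact Finset.le_sup (f := n) (Finset.mem_product.2 ⟨hc, hc'⟩)

theorem read_pre {x : ℕ → Bool} {k : ℕ} : ∀ {m : List ℕ} {c : List Bool},
    m.map (fun i => (pre x k)[i]?) = c.map some ↔ (∀ i ∈ m, i < k) ∧ c = m.map x := by
  intro m
  induction m with
  | nil => intro c; simp
  | cons a m ih =>
    intro c
    cases c with
    | nil => simp
    | cons b c =>
      rw [List.map_cons, List.map_cons, List.map_cons, List.cons.injEq, ih, pre_getElem?,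
        List.forall_mem_cons, List.cons.injEq]
      constructor
      · rintro ⟨h1, h2, h3⟩
        split_ifs at h1 with h4
        exact ⟨⟨h4, h2⟩, (Option.some.inj h1).symm, h3⟩
      · rintro ⟨⟨h4, h2⟩, h1, h3⟩
        rw [if_pos h4, h1]
        exact ⟨rfl, h2, h3⟩

theorem primrec_read : PrimrecPred fun x : (List Bool × List ℕ) × List Bool =>
    x.1.2.map (fun i => x.1.1[i]?) = x.2.map some := by
  refine Primrec.eq.comp (f := fun x : (List Bool × List ℕ) × List Bool =>
    x.1.2.map (fun i => x.1.1[i]?)) (g := fun x => x.2.map some) ?_ ?_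
  · refine Primrec.list_map (Primrec.snd.comp Primrec.fst) ?_
    exact (Primrec.list_getElem?.comp (Primrec.fst.comp (Primrec.fst.comp Primrec.fst))
      Primrec.snd).to₂
  · exact Primrec.list_map Primrec.snd (Primrec.option_some.comp Primrec.snd).to₂

theorem exists_bound (m : List ℕ) : ∃ k, ∀ i ∈ m, i < k := by
  induction m with
  | nil => exact ⟨0, by simp⟩
  | cons a m ih =>
    obtain ⟨k, hk⟩ := ih
    refine ⟨max k (a + 1), ?_⟩
    intro i hi
    rcases List.mem_cons.1 hi with rfl | hi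
    · exact lt_of_lt_of_le (Nat.lt_succ_self _) (le_max_right _ _)
    · exact lt_of_lt_of_le (hk i hi) (le_max_left _ _)

/-- Programs which read some bits of the oracle and then run the program given by a table. -/
theorem exists_reader {t : List Bool → ℕ} (ht : Primrec t) :
    ∃ s : List ℕ → ℕ, Computable s ∧ ∀ (m : List ℕ) (z y : ℕ → Bool),
      Via (t (m.map z)) z y → Via (s m) z y := by
  obtain ⟨s, hs, h, -⟩ := exists_index (α := List ℕ)
    (R := fun x : (List ℕ × (List Bool × ℕ)) × ℕ => ∃ c : List Bool,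
      x.1.1.map (fun i => x.1.2.1[i]?) = c.map some ∧ PS (x.1.2.1, (t c, x.1.2.2, x.2))) (by
    apply CE.exists (R := fun x : ((List ℕ × (List Bool × ℕ)) × ℕ) × List Bool =>
      x.1.1.1.map (fun i => x.1.1.2.1[i]?) = x.2.map some ∧
        PS (x.1.1.2.1, (t x.2, x.1.1.2.2, x.1.2)))
    have g1 : Primrec fun x : ((List ℕ × (List Bool × ℕ)) × ℕ) × List Bool => x.1.1.1 :=
      Primrec.fst.comp (Primrec.fst.comp Primrec.fst)
    have g2 : Primrec fun x : ((List ℕ × (List Bool × ℕ)) × ℕ) × List Bool => x.1.1.2.1 :=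
      Primrec.fst.comp (Primrec.snd.comp (Primrec.fst.comp Primrec.fst))
    have g3 : Primrec fun x : ((List ℕ × (List Bool × ℕ)) × ℕ) × List Bool => x.1.1.2.2 :=
      Primrec.snd.comp (Primrec.snd.comp (Primrec.fst.comp Primrec.fst))
    refine CE.and (CE.of_primrec ?_) (CE.of_primrec ?_)
    · exact primrec_read.comp (f := fun x : ((List ℕ × (List Bool × ℕ)) × ℕ) × List Bool =>
        ((x.1.1.2.1, x.1.1.1), x.2)) ((g2.pair g1).pair Primrec.snd)
    · exact primrec_PS.comp (f := fun x : ((List ℕ × (List Bool × ℕ)) × ℕ) × List Bool =>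
        (x.1.1.2.1, (t x.2, x.1.1.2.2, x.1.2)))
        (g2.pair ((ht.comp Primrec.snd).pair (g3.pair (Primrec.snd.comp Primrec.fst)))))
  refine ⟨s, hs, fun m z y hy n => h m z n _ ?_ ?_⟩
  · rintro k v ⟨c, hc, hv⟩
    simp only at hc hv
    obtain ⟨-, rfl⟩ := read_pre.1 hc
    have h1 : v ∈ Phi (t (m.map z)) z n := mem_Phi_iff.2 ⟨k, hv⟩
    rw [hy n] at h1
    exact Part.mem_some_iff.1 h1
  · have h1 : (y n).toNat ∈ Phi (t (m.map z)) z n := by
      rw [hy n]
      exact Part.mem_some _
    obtain ⟨k, hk⟩ := mem_Phi_iff.1 h1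
    obtain ⟨k', hk'⟩ := exists_bound m
    refine ⟨max k k', m.map z, ?_, ?_⟩
    · simp only
      rw [read_pre]
      exact ⟨fun i hi => lt_of_lt_of_le (hk' i hi) (le_max_right _ _), rfl⟩
    · exact PS_mono (le_max_left _ _) hk

/-- A program which runs the program given by a table on an initial segment of the oracle. -/
theorem exists_recogniser {t : List Bool → ℕ} (ht : Primrec t) (L : ℕ) :
    ∃ j : ℕ, ∀ x y : ℕ → Bool, Via (t (pre x L)) x y → Via j x y := by
  obtain ⟨s, -, h, -⟩ := exists_index (α := Unit)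
    (R := fun x : (Unit × (List Bool × ℕ)) × ℕ => L ≤ x.1.2.1.length ∧
      PS (x.1.2.1, (t (x.1.2.1.take L), x.1.2.2, x.2))) (by
    have g2 : Primrec fun x : (Unit × (List Bool × ℕ)) × ℕ => x.1.2.1 :=
      Primrec.fst.comp (Primrec.snd.comp Primrec.fst)
    have g3 : Primrec fun x : (Unit × (List Bool × ℕ)) × ℕ => x.1.2.2 :=
      Primrec.snd.comp (Primrec.snd.comp Primrec.fst)
    refine CE.and (CE.of_primrec ?_) (CE.of_primrec ?_)
    · exact Primrec.nat_le.comp (Primrec.const L) (Primrec.list_length.comp g2)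
    · exact primrec_PS.comp (f := fun x : (Unit × (List Bool × ℕ)) × ℕ =>
        (x.1.2.1, (t (x.1.2.1.take L), x.1.2.2, x.2)))
        (g2.pair ((ht.comp (Primrec.list_take.comp (Primrec.const L) g2)).pair
          (g3.pair Primrec.snd))))
  refine ⟨s (), fun x y hy n => h () x n _ ?_ ?_⟩
  · rintro k v ⟨hL, hv⟩
    simp only [pre_length, pre_take] at hL hv
    rw [min_eq_left hL] at hv
    have h1 : v ∈ Phi (t (pre x L)) x n := mem_Phi_iff.2 ⟨k, hv⟩
    rw [hy n] at h1
    exact Part.mem_some_iff.1 h1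
  · have h1 : (y n).toNat ∈ Phi (t (pre x L)) x n := by
      rw [hy n]
      exact Part.mem_some _
    obtain ⟨k, hk⟩ := mem_Phi_iff.1 h1
    refine ⟨max k L, ?_, ?_⟩
    · simp
    · simp only [pre_take]
      rw [min_eq_left (le_max_right k L)]
      exact PS_mono (le_max_left _ _) hk

theorem ceIn_Enum (w : ℕ → Bool) : CEIn w (fun p : ℕ × List Bool => Enum p.1 w p.2) := by
  apply CEIn.ex (S := fun p : (ℕ × List Bool) × ℕ => Encodable.encode p.1.2 ∈ Phi p.1.1 w p.2)
  exact (ceIn_Phi w).comp (f := fun p : (ℕ × List Bool) × ℕ =>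
    (p.1.1, p.2, Encodable.encode p.1.2))
    ((Primrec.fst.comp Primrec.fst).pair (Primrec.snd.pair
      (Primrec.encode.comp (Primrec.snd.comp Primrec.fst))))

theorem pre_inj {y y' : ℕ → Bool} {L : ℕ} (h : pre y L = pre y' L) : ∀ n < L, y n = y' n := by
  intro n hn
  have h1 := congrArg (fun l : List Bool => l[n]?) h
  simp only [pre_getElem?, if_pos hn] at h1
  exact Option.some.inj h1

theorem ceIn_forall {α ι : Type} [Primcodable α] {w : ℕ → Bool} {P : ι → α → Prop}
    (h : ∀ i, CEIn w (P i)) (T : Finset ι) : CEIn w (fun x => ∀ i ∈ T, P i x) := by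
  classical
  induction T using Finset.induction_on with
  | empty =>
    have h0 : CEIn w (fun x : α => x = x) := CEIn.of_primrec (Primrec.eq.comp Primrec.id Primrec.id)
    exact h0.of_eq fun x => by simp
  | insert i T hi ih =>
    refine ((h i).and ih).of_eq fun x => ?_
    simp

theorem exists_inj {s : Set (List Bool)} {K : ℕ} (h : ¬ s.encard ≤ K) :
    ∃ e : Fin (K + 1) → List Bool, Function.Injective e ∧ ∀ i, e i ∈ s := by
  have h1 : ((K + 1 : ℕ) : ℕ∞) ≤ s.encard := by
    rw [not_le] at h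
    have := Order.add_one_le_of_lt h
    simpa using this
  obtain ⟨t, ht, htc⟩ := Set.exists_subset_encard_eq h1
  have hfin : t.Finite := Set.finite_of_encard_eq_coe htc
  have hcard : hfin.toFinset.card = K + 1 := by
    have := hfin.encard_eq_coe_toFinset_card
    rw [htc] at this
    exact_mod_cast this.symm
  have eqv := hfin.toFinset.equivFinOfCardEq hcard
  refine ⟨fun i => (eqv.symm i : List Bool), ?_, fun i => ?_⟩
  · intro i i' hii
    exact eqv.symm.injective (Subtype.ext hii)
  · exact ht (hfin.mem_toFinset.1 (eqv.symm i).2)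

theorem coding {a : ℕ → Bool} {K L2 : ℕ} {S : Set (ℕ → Bool)} {f : (ℕ → Bool) → ℕ → Bool}
    (hf : AmbiguousAt a K L2 S f) {z : ℕ → Bool} (hz : z ∈ S) (Y : ℕ → ℕ → Bool)
    (hY : ∀ c < K + 1, Y c ∈ S ∧ Red (Y c) z ∧ Red z (Y c))
    (hinj : ∀ c < K + 1, ∀ c' < K + 1, pre (f (Y c)) L2 = pre (f (Y c')) L2 → c = c') :
    Red z (join (f z) a) := by
  classical
  obtain ⟨U, hU, hU2⟩ := hf
  set T : Finset ℕ := Finset.range (K + 1) with hT
  have hTm : ∀ c, c ∈ T ↔ c < K + 1 := fun c => by simp [hT]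
  -- indices
  have ha : ∀ c, ∃ i, c ∈ T → Via i z (Y c) := by
    intro c
    by_cases hc : c ∈ T
    · obtain ⟨i, hi⟩ := via_of_red (hY c ((hTm c).1 hc)).2.1
      exact ⟨i, fun _ => hi⟩
    · exact ⟨0, fun h => absurd h hc⟩
  have hb : ∀ c, ∃ i, c ∈ T → Via i (Y c) z := by
    intro c
    by_cases hc : c ∈ T
    · obtain ⟨i, hi⟩ := via_of_red (hY c ((hTm c).1 hc)).2.2
      exact ⟨i, fun _ => hi⟩
    · exact ⟨0, fun h => absurd h hc⟩
  choose ia ha using ha
  choose ib hb using hb
  -- the recogniser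
  obtain ⟨L1, hL1⟩ := exists_sep Y T (fun c hc c' hc' h =>
    hinj c ((hTm c).1 hc) c' ((hTm c').1 hc') (by rw [h]))
  obtain ⟨tb, htb, htb2⟩ := exists_table (α := List Bool) (β := ℕ) 0 (fun c => pre (Y c) L1) ib T
    (fun c hc c' hc' h => hL1 c hc c' hc' (pre_inj h))
  obtain ⟨j, hj⟩ := exists_recogniser htb L1
  -- the decoder
  obtain ⟨tc, htc, htc2⟩ := exists_table (α := List Bool) (β := ℕ) 0
    (fun c => pre (f (Y c)) L2) (fun c => c) T
    (fun c hc c' hc' h => hinj c ((hTm c).1 hc) c' ((hTm c').1 hc') h)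
  -- the queries
  set TK : Finset (List Bool) := (List.finite_length_eq Bool K).toFinset with hTK
  have hTKm : ∀ c, c ∈ TK ↔ c.length = K := fun c => by simp [hTK]
  have hF : ∀ q : Fin (K + 1) → TK, ∃ F : List Bool → ℕ, Primrec F ∧ (∀ c ∈ TK, F c < K + 1) ∧
      (Function.Injective q → ∀ i, F (q i : List Bool) = i) := by
    intro q
    let F0 : List Bool → ℕ := fun c => if h : ∃ i, (q i : List Bool) = c then
      (Classical.choose h : Fin (K + 1)).val else 0
    obtain ⟨F, hF, hF2⟩ := exists_table (α := List Bool) (β := ℕ) 0 (fun c => c) F0 TK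
      (fun c _ c' _ h => h)
    refine ⟨F, hF, fun c hc => ?_, fun hq i => ?_⟩
    · rw [hF2 c hc]
      simp only [F0]
      split_ifs with h
      · exact (Classical.choose h).2
      · omega
    · rw [hF2 _ (q i).2]
      have h : ∃ i', (q i' : List Bool) = q i := ⟨i, rfl⟩
      simp only [F0, dif_pos h]
      have h2 := Classical.choose_spec h
      exact congrArg Fin.val (hq (Subtype.ext h2))
  choose F hFp hFlt hFinj using hF
  have hs : ∀ q : Fin (K + 1) → TK, ∃ s : List ℕ → ℕ, Computable s ∧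
      ∀ m : List ℕ, m.map z ∈ TK → Via (s m) z (Y (F q (m.map z))) := by
    intro q
    obtain ⟨t, ht, ht2⟩ := exists_table (α := List Bool) (β := ℕ) 0 (fun c => c)
      (fun c => ia (F q c)) TK (fun c _ c' _ h => h)
    obtain ⟨s, hs, hs2⟩ := exists_reader ht
    refine ⟨s, hs, fun m hm => hs2 m z _ ?_⟩
    rw [ht2 _ hm]
    exact ha _ ((hTm _).2 (hFlt q _ hm))
  choose s hs hs2 using hs
  have hwl : Red (f z) (join (f z) a) := red_join_left _ _
  have hwr : Red a (join (f z) a) := red_join_right _ _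
  -- the candidates
  let D : (Fin (K + 1) → TK) → List ℕ × ℕ → Prop := fun q x => ∃ σ : List Bool,
    Enum (U (s q x.1) j) (f z) σ ∧ (σ.length = L2 ∧ tc σ = x.2)
  have hD : ∀ q, CEIn (join (f z) a) (D q) := by
    intro q
    have h1 : CEIn a (fun x : (ℕ × ℕ) × ℕ => x.2 ∈ (Part.some (U x.1.1 x.1.2))) :=
      CEIn.graph (α := ℕ × ℕ) (β := ℕ) (f := fun p => Part.some (U p.1 p.2)) hU
    have h2 : CE (fun x : List ℕ × ℕ => x.2 ∈ (Part.some (s q x.1))) :=
      CE.graph (f := fun p => Part.some (s q p)) (hs q)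
    have h3 : CEIn (join (f z) a) (fun x : List ℕ × List Bool =>
        ∃ y : ℕ × ℕ, y.1 ∈ Part.some (s q x.1) ∧
          (y.2 ∈ Part.some (U y.1 j) ∧ Enum y.2 (f z) x.2)) := by
      apply CEIn.ex (S := fun x : (List ℕ × List Bool) × (ℕ × ℕ) =>
        x.2.1 ∈ Part.some (s q x.1.1) ∧
          (x.2.2 ∈ Part.some (U x.2.1 j) ∧ Enum x.2.2 (f z) x.1.2))
      refine CEIn.and (CEIn.of_ce ?_) (CEIn.and (ceIn_of_red ?_ hwr) (ceIn_of_red ?_ hwl))
      · exact h2.comp (f := fun x : (List ℕ × List Bool) × (ℕ × ℕ) => (x.1.1, x.2.1))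
          ((Primrec.fst.comp Primrec.fst).pair (Primrec.fst.comp Primrec.snd))
      · exact h1.comp (f := fun x : (List ℕ × List Bool) × (ℕ × ℕ) => ((x.2.1, j), x.2.2))
          (((Primrec.fst.comp Primrec.snd).pair (Primrec.const j)).pair
            (Primrec.snd.comp Primrec.snd))
      · exact (ceIn_Enum (f z)).comp (f := fun x : (List ℕ × List Bool) × (ℕ × ℕ) =>
          (x.2.2, x.1.2)) ((Primrec.snd.comp Primrec.snd).pair (Primrec.snd.comp Primrec.fst))
    have h4 : CEIn (join (f z) a) (fun x : List ℕ × List Bool =>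
        Enum (U (s q x.1) j) (f z) x.2) := by
      refine h3.of_eq fun x => ?_
      constructor
      · rintro ⟨⟨i, l⟩, h5, h6, h7⟩
        simp only at h5 h6 h7
        rw [Part.mem_some_iff] at h5 h6
        subst h5
        subst h6
        exact h7
      · intro h
        exact ⟨(_, _), Part.mem_some _, Part.mem_some _, h⟩
    apply CEIn.ex (S := fun x : (List ℕ × ℕ) × List Bool =>
      Enum (U (s q x.1.1) j) (f z) x.2 ∧ (x.2.length = L2 ∧ tc x.2 = x.1.2))
    refine CEIn.and ?_ (CEIn.and (CEIn.of_primrec ?_) (CEIn.of_primrec ?_))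
    · exact h4.comp (f := fun x : (List ℕ × ℕ) × List Bool => (x.1.1, x.2))
        ((Primrec.fst.comp Primrec.fst).pair Primrec.snd)
    · exact Primrec.eq.comp (Primrec.list_length.comp Primrec.snd) (Primrec.const L2)
    · exact Primrec.eq.comp (htc.comp Primrec.snd) (Primrec.snd.comp Primrec.fst)
  have htrue : ∀ q m, m.map z ∈ TK → Via (s q m) z (Y (F q (m.map z))) ∧
      Via j (Y (F q (m.map z))) z := by
    intro q m hm
    have hlt := hFlt q _ hm
    refine ⟨hs2 q m hm, hj _ z ?_⟩
    have := htb2 _ ((hTm _).2 hlt)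
    rw [this]
    exact hb _ ((hTm _).2 hlt)
  have hDcard : ∀ q m, m.map z ∈ TK → {i | D q (m, i)}.encard ≤ K := by
    intro q m hm
    obtain ⟨v1, v2⟩ := htrue q m hm
    have h1 := (hU2 z hz _ (hY _ (hFlt q _ hm)).1 _ _ v1 v2).1
    refine le_trans ?_ ((Set.encard_image_le tc _).trans h1)
    apply Set.encard_le_encard
    rintro i ⟨σ, h2, h3, h4⟩
    exact ⟨σ, ⟨h3, h2⟩, h4⟩
  have hDtrue : ∀ q m, m.map z ∈ TK → D q (m, F q (m.map z)) := by
    intro q m hm
    obtain ⟨v1, v2⟩ := htrue q m hm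
    have h1 := (hU2 z hz _ (hY _ (hFlt q _ hm)).1 _ _ v1 v2).2
    exact ⟨_, h1, by simp, htc2 _ ((hTm _).2 (hFlt q _ hm))⟩
  refine nonspeedup K (fun x => x.2.length = K ∧
    ∀ q ∈ (Finset.univ : Finset (Fin (K + 1) → TK)), D q (x.1, F q x.2)) ?_ ?_ ?_
  · refine CEIn.and (CEIn.of_primrec (Primrec.eq.comp (Primrec.list_length.comp Primrec.snd)
      (Primrec.const K))) ?_
    apply ceIn_forall (P := fun q (x : List ℕ × List Bool) => D q (x.1, F q x.2))
    intro q
    exact (hD q).comp (Primrec.fst.pair ((hFp q).comp Primrec.snd))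
  · intro m hm
    have hmT : m.map z ∈ TK := (hTKm _).2 (by simp [hm])
    by_contra hcon
    obtain ⟨e, he, hes⟩ := exists_inj hcon
    simp only [Set.mem_setOf_eq] at hes
    let q : Fin (K + 1) → TK := fun i => ⟨e i, (hTKm _).2 (hes i).1⟩
    have hq : Function.Injective q := fun i i' h => he (congrArg Subtype.val h)
    have h1 : (Set.range fun i : Fin (K + 1) => (i : ℕ)) ⊆ {i | D q (m, i)} := by
      rintro _ ⟨i, rfl⟩
      have h2 := (hes i).2 q (Finset.mem_univ _)
      have h3 : F q (e i) = i := hFinj q hq i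
      rw [h3] at h2
      exact h2
    have h2 := (Set.encard_le_encard h1).trans (hDcard q m hmT)
    have h3 : (Set.range fun i : Fin (K + 1) => (i : ℕ)).encard = (K + 1 : ℕ) := by
      rw [← Set.image_univ, Function.Injective.encard_image Fin.val_injective,
        Set.encard_univ]
      simp
    rw [h3] at h2
    have h4 : K + 1 ≤ K := by exact_mod_cast h2
    omega
  · intro m hm
    have hmT : m.map z ∈ TK := (hTKm _).2 (by simp [hm])
    exact ⟨by simp [hm], fun q _ => hDtrue q m hmT⟩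

end Pool.Agent.H.MP_8387fc_lc.BA
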