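import Mathlib
import Pool.Agent.H.MP_8387fc_lc.BA.Coding

/-!
Boundedly ambiguous functions on a degree and on a cone.
-/

set_option linter.all false

namespace Pool.Agent.H.MP_8387fc_lc.BA

open Nat.Partrec (Code)
open Pool.Agent.H.MP_95c08c_lc

/-- The Turing degree of `x`. -/
def deg (x : ℕ → Bool) : Set (ℕ → Bool) := {y | Red x y ∧ Red y x}

/-- The Turing cone above `b`. -/
def cone (b : ℕ → Bool) : Set (ℕ → Bool) := {x | Red b x}

/-- `A` is Turing invariant. -/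
def TuringInvariantSet (A : Set (ℕ → Bool)) : Prop := ∀ x ∈ A, ∀ y ∈ deg x, y ∈ A

/-- Turing determinacy for a class of sets of reals: every Turing invariant member of the class
contains a cone or is disjoint from a cone. -/
def TuringDetermined (Γ : Set (Set (ℕ → Bool))) : Prop :=
  ∀ A ∈ Γ, TuringInvariantSet A → (∃ b, cone b ⊆ A) ∨ ∃ b, cone b ⊆ Aᶜ

theorem mem_deg_self (x : ℕ → Bool) : x ∈ deg x := ⟨Red.refl x, Red.refl x⟩

theorem mem_deg_symm {x y : ℕ → Bool} (h : y ∈ deg x) : x ∈ deg y := ⟨h.2, h.1⟩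

theorem mem_deg_trans {x y z : ℕ → Bool} (h : y ∈ deg x) (h' : z ∈ deg y) : z ∈ deg x :=
  ⟨h.1.trans h'.1, h'.2.trans h.2⟩

theorem deg_eq {x y : ℕ → Bool} (h : y ∈ deg x) : deg y = deg x := by
  ext z
  exact ⟨fun h' => mem_deg_trans h h', fun h' => mem_deg_trans (mem_deg_symm h) h'⟩

theorem exists_inj' {s : Set (ℕ → Bool)} {K : ℕ} (h : ¬ s.encard ≤ K) :
    ∃ e : Fin (K + 1) → ℕ → Bool, Function.Injective e ∧ ∀ i, e i ∈ s := by
  have h1 : ((K + 1 : ℕ) : ℕ∞) ≤ s.encard := by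
    rw [not_le] at h
    have := Order.add_one_le_of_lt h
    simpa using this
  obtain ⟨t, ht, htc⟩ := Set.exists_subset_encard_eq h1
  have hfin : t.Finite := Set.finite_of_encard_eq_coe htc
  have hcard : hfin.toFinset.card = K + 1 := by
    have := hfin.encard_eq_coe_toFinset_card
    rw [htc] at this
    exact_mod_cast this.symm
  have eqv := hfin.toFinset.equivFinOfCardEq hcard
  refine ⟨fun i => (eqv.symm i : ℕ → Bool), ?_, fun i => ?_⟩
  · intro i i' hii
    exact eqv.symm.injective (Subtype.ext hii)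
  · exact ht (hfin.mem_toFinset.1 (eqv.symm i).2)

/-- The local theorem for initial segments of a fixed length. -/
theorem local_at {a : ℕ → Bool} {K L : ℕ} {S : Set (ℕ → Bool)} {f : (ℕ → Bool) → ℕ → Bool}
    (hf : AmbiguousAt a K L S f) {x : ℕ → Bool} (hx : x ∈ S) :
    Red x (join (f x) a) ∨ {σ | ∃ y ∈ S ∩ deg x, pre (f y) L = σ}.encard ≤ K := by
  by_cases h : {σ | ∃ y ∈ S ∩ deg x, pre (f y) L = σ}.encard ≤ K
  · exact Or.inr h
  · left
    obtain ⟨e, he, hes⟩ := exists_inj h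
    choose y hy hfy using hes
    refine coding hf hx (fun c => if h : c < K + 1 then y ⟨c, h⟩ else x) ?_ ?_
    · intro c hc
      simp only [dif_pos hc]
      exact ⟨(hy _).1, (hy _).2.2, (hy _).2.1⟩
    · intro c hc c' hc' h
      simp only [dif_pos hc, dif_pos hc', hfy] at h
      exact congrArg Fin.val (he h)

/-- The local theorem. -/
theorem local_relative {a : ℕ → Bool} {K : ℕ} {S : Set (ℕ → Bool)} {f : (ℕ → Bool) → ℕ → Bool}
    (hf : AmbiguousIn a K S f) {x : ℕ → Bool} (hx : x ∈ S) :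
    Red x (join (f x) a) ∨ (f '' (S ∩ deg x)).encard ≤ K := by
  by_cases h : (f '' (S ∩ deg x)).encard ≤ K
  · exact Or.inr h
  · left
    obtain ⟨e, he, hes⟩ := exists_inj' h
    obtain ⟨L, hL⟩ := exists_sep e Finset.univ (fun c _ c' _ h => he h)
    rcases local_at (hf L) hx with h1 | h1
    · exact h1
    · exfalso
      have h2 : Set.range (fun i => pre (e i) L) ⊆ {σ | ∃ y ∈ S ∩ deg x, pre (f y) L = σ} := by
        rintro _ ⟨i, rfl⟩
        obtain ⟨y, hy, hfy⟩ := hes i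
        exact ⟨y, hy, by rw [hfy]⟩
      have h3 : Function.Injective (fun i => pre (e i) L) := fun i i' h =>
        hL i (Finset.mem_univ _) i' (Finset.mem_univ _) (pre_inj h)
      have h4 := (Set.encard_le_encard h2).trans h1
      rw [← Set.image_univ, h3.encard_image, Set.encard_univ] at h4
      simp only [ENat.card_eq_coe_fintype_card, Fintype.card_fin] at h4
      have h5 : K + 1 ≤ K := by exact_mod_cast h4
      omega

/-- Finite sets of reals with the same initial segments are equal. -/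
theorem subset_of_pre {V V' : Set (ℕ → Bool)} (hV' : V'.Finite)
    (h : ∀ y ∈ V, ∀ n, ∃ y' ∈ V', pre y' n = pre y n) : V ⊆ V' := by
  intro y hy
  by_contra hne
  have h1 : ∀ y' ∈ V', ∃ n, y n ≠ y' n := by
    intro y' hy'
    have : y ≠ y' := fun e => hne (e ▸ hy')
    exact Function.ne_iff.1 this
  choose! n hn using h1
  obtain ⟨N, hN⟩ := (hV'.image n).bddAbove
  obtain ⟨y', hy', he⟩ := h y hy (N + 1)
  have h2 : n y' < N + 1 := Nat.lt_succ_of_le (hN ⟨y', hy', rfl⟩)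
  exact hn y' hy' (pre_inj he _ h2).symm

/-- The join of countably many reals. -/
def bigJoin (b : ℕ → ℕ → Bool) : ℕ → Bool := fun p => b p.unpair.1 p.unpair.2

theorem red_bigJoin (b : ℕ → ℕ → Bool) (n : ℕ) : Red (b n) (bigJoin b) := by
  apply red_of_ceIn
  refine ((ceIn_orc (bigJoin b)).comp (f := fun p : ℕ × ℕ => (Nat.pair n p.1, p.2))
    ((Primrec₂.natPair.comp (Primrec.const n) Primrec.fst).pair Primrec.snd)).of_eq fun p => ?_
  simp only [orc, bigJoin, Nat.unpair_pair]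

/-- The cone theorem, from the local dichotomy for cofinally many degrees. -/
theorem cone_general {Γ : Set (Set (ℕ → Bool))} (hΓ : TuringDetermined Γ)
    {a b : ℕ → Bool} {S : Set (ℕ → Bool)} {f : (ℕ → Bool) → ℕ → Bool}
    (hinv : ∀ x ∈ cone b, ∀ y ∈ deg x, f y ∈ deg (f x))
    (hS : ∀ x ∈ cone b, (S ∩ deg x).Nonempty)
    (hf : ∀ c, ∃ x ∈ cone c, ∀ y ∈ S ∩ deg x,
      Red y (join (f y) a) ∨ (f '' (S ∩ deg x)).Finite)
    (h1 : {x | x ∈ cone b ∧ Red x (join (f x) a)} ∈ Γ)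
    (h2 : ∀ σ : List Bool, {x | x ∈ cone b ∧ ∃ y ∈ S ∩ deg x, pre (f y) σ.length = σ} ∈ Γ) :
    (∃ b', ∀ x ∈ cone b', Red x (join (f x) a)) ∨
      ∃ c b', ∀ x ∈ cone b', f x ∈ deg c := by
  have hred : ∀ x ∈ cone b, ∀ y ∈ deg x, Red x (join (f x) a) → Red y (join (f y) a) := by
    intro x hx y hy hr
    have h3 := hinv x hx y hy
    exact (hy.2.trans hr).trans (join_red (h3.1.trans (red_join_left _ _)) (red_join_right _ _))
  rcases hΓ _ h1 (by
    rintro x ⟨hx, hr⟩ y hy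
    exact ⟨Red.trans hx hy.1, hred x hx y hy hr⟩)
    with ⟨b', hb'⟩ | ⟨b0, hb0⟩
  · exact Or.inl ⟨b', fun x hx => (hb' hx).2⟩
  · right
    have h4 : ∀ σ : List Bool, ∃ bs : ℕ → Bool,
        (∀ x ∈ cone bs, ∃ y ∈ S ∩ deg x, pre (f y) σ.length = σ) ∨
          (∀ x ∈ cone bs, ¬ (x ∈ cone b ∧ ∃ y ∈ S ∩ deg x, pre (f y) σ.length = σ)) := by
      intro σ
      rcases hΓ _ (h2 σ) (by
        rintro x ⟨hx, y', hy', hσ⟩ y hy
        exact ⟨Red.trans hx hy.1, y', ⟨hy'.1, mem_deg_trans (mem_deg_symm hy) hy'.2⟩, hσ⟩)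
        with ⟨b', hb'⟩ | ⟨b', hb'⟩
      · exact ⟨b', Or.inl fun x hx => (hb' hx).2⟩
      · exact ⟨b', Or.inr fun x hx => hb' hx⟩
    choose bs hbs using h4
    let B : ℕ → ℕ → Bool := fun n =>
      if n = 0 then b else if n = 1 then b0 else
        bs ((Encodable.decode (α := List Bool) (n - 2)).getD [])
    set b' := bigJoin B with hb'
    have c0 : Red b b' := red_bigJoin B 0
    have c1 : Red b0 b' := red_bigJoin B 1
    have c2 : ∀ σ, Red (bs σ) b' := by
      intro σ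
      have := red_bigJoin B (Encodable.encode σ + 2)
      simpa [B] using this
    obtain ⟨x1, hx1, hf1⟩ := hf b'
    have hxb : x1 ∈ cone b := c0.trans hx1
    have hfin : (f '' (S ∩ deg x1)).Finite := by
      obtain ⟨y, hyS, hy⟩ := hS x1 hxb
      have hyb : y ∈ cone b := Red.trans hxb hy.1
      rcases hf1 y ⟨hyS, hy⟩ with h5 | h5
      · exact absurd ⟨hxb, hred y hyb x1 (mem_deg_symm hy) h5⟩ (hb0 (c1.trans hx1))
      · exact h5
    have hsame : ∀ x ∈ cone b', f '' (S ∩ deg x) ⊆ f '' (S ∩ deg x1) := by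
      intro x hx
      refine subset_of_pre hfin ?_
      rintro _ ⟨y, hy, rfl⟩ n
      rcases hbs (pre (f y) n) with h6 | h6
      · obtain ⟨y', hy', h7⟩ := h6 x1 ((c2 _).trans hx1)
        exact ⟨f y', ⟨y', hy', rfl⟩, by simpa using h7⟩
      · exact absurd ⟨c0.trans hx, y, hy, by simp⟩ (h6 x ((c2 _).trans hx))
    refine ⟨f x1, b', fun x hx => ?_⟩
    obtain ⟨y0, hy0S, hy0⟩ := hS x (c0.trans hx)
    obtain ⟨y, hy, hyx⟩ := hsame x hx ⟨y0, ⟨hy0S, hy0⟩, rfl⟩
    have h7 := hinv x1 hxb y hy.2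
    have h8 := hinv x (c0.trans hx) y0 hy0
    rw [hyx] at h7
    exact mem_deg_trans h7 (mem_deg_symm h8)

/-- The cone theorem. -/
theorem cone_relative {Γ : Set (Set (ℕ → Bool))} (hΓ : TuringDetermined Γ)
    {a b : ℕ → Bool} {S : Set (ℕ → Bool)} {f : (ℕ → Bool) → ℕ → Bool}
    (hinv : ∀ x ∈ cone b, ∀ y ∈ deg x, f y ∈ deg (f x))
    (hS : ∀ x ∈ cone b, (S ∩ deg x).Nonempty)
    (hf : ∀ x ∈ cone b, ∃ K, AmbiguousIn a K (S ∩ deg x) f)
    (h1 : {x | x ∈ cone b ∧ Red x (join (f x) a)} ∈ Γ)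
    (h2 : ∀ σ : List Bool, {x | x ∈ cone b ∧ ∃ y ∈ S ∩ deg x, pre (f y) σ.length = σ} ∈ Γ) :
    (∃ b', ∀ x ∈ cone b', Red x (join (f x) a)) ∨
      ∃ c b', ∀ x ∈ cone b', f x ∈ deg c := by
  refine cone_general hΓ hinv hS (fun c => ⟨join b c, red_join_right b c, fun y hy => ?_⟩) h1 h2
  set x := join b c
  obtain ⟨K, hK⟩ := hf x (red_join_left b c)
  rcases local_relative hK hy with h5 | h5
  · exact Or.inl h5
  · right
    have h6 : S ∩ deg x ∩ deg y = S ∩ deg x := by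
      rw [deg_eq hy.2, Set.inter_assoc, Set.inter_self]
    rw [h6] at h5
    exact Set.finite_of_encard_le_coe h5

/-- `f` is uniformly Turing invariant on `S`. -/
def UniformlyInvariant (S : Set (ℕ → Bool)) (f : (ℕ → Bool) → ℕ → Bool) : Prop :=
  ∃ u : ℕ → ℕ → ℕ × ℕ, ∀ x ∈ S, ∀ y ∈ S, ∀ i j, Via i x y → Via j y x →
    Via (u i j).1 (f x) (f y) ∧ Via (u i j).2 (f y) (f x)

theorem uniformlyInvariant_const (S : Set (ℕ → Bool)) (c : ℕ → Bool) :
    UniformlyInvariant S fun _ => c := by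
  obtain ⟨e, he⟩ := via_of_red (Red.refl c)
  exact ⟨fun _ _ => (e, e), fun _ _ _ _ _ _ _ _ => ⟨he, he⟩⟩

end Pool.Agent.H.MP_8387fc_lc.BA
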