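import Mathlib
import Pool.Agent.H.MP_8387fc_lc.BA.Cone

/-!
Lists of at most `K` indices give ambiguity at most `K`.
-/

set_option linter.all false

namespace Pool.Agent.H.MP_8387fc_lc.BA

open Nat.Partrec (Code)
open Pool.Agent.H.MP_95c08c_lc

/-- The list of the first `L` values of `y`, in reverse order. -/
def rv (y : ℕ → Bool) : ℕ → List ℕ
  | 0 => []
  | L + 1 => (y L).toNat :: rv y L

/-- The string with a given reversed list of values. -/
def back (o : List ℕ) : List Bool := (o.map fun v => decide (v = 1)).reverse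

theorem back_rv (y : ℕ → Bool) (L : ℕ) : back (rv y L) = pre y L := by
  induction L with
  | zero => rfl
  | succ L ih =>
    rw [pre_succ, ← ih]
    unfold back
    cases h : y L <;> simp [rv, h]

theorem primrec_back : Primrec back := by
  unfold back
  exact Primrec.list_reverse.comp (Primrec.list_map Primrec.id
    ((Primrec.eq.comp Primrec.snd (Primrec.const 1)).decide).to₂)

/-- The first `L` outputs of the program `p.2.1` on the string `p.1` are `p.2.2`. -/
def ObsS : ℕ → List Bool × (ℕ × List ℕ) → Prop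
  | 0, p => p.2.2 = []
  | L + 1, p => ∃ q : List ℕ × ℕ, ObsS L (p.1, (p.2.1, q.1)) ∧
      (PS (p.1, (p.2.1, L, q.2)) ∧ p.2.2 = q.2 :: q.1)

theorem ce_ObsS (L : ℕ) : CE (ObsS L) := by
  induction L with
  | zero =>
    exact CE.of_primrec (Primrec.eq.comp (Primrec.snd.comp Primrec.snd) (Primrec.const []))
  | succ L ih =>
    apply CE.exists (R := fun x : (List Bool × (ℕ × List ℕ)) × (List ℕ × ℕ) =>
      ObsS L (x.1.1, (x.1.2.1, x.2.1)) ∧
        (PS (x.1.1, (x.1.2.1, L, x.2.2)) ∧ x.1.2.2 = x.2.2 :: x.2.1))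
    have g1 : Primrec fun x : (List Bool × (ℕ × List ℕ)) × (List ℕ × ℕ) => x.1.1 :=
      Primrec.fst.comp Primrec.fst
    have g2 : Primrec fun x : (List Bool × (ℕ × List ℕ)) × (List ℕ × ℕ) => x.1.2.1 :=
      Primrec.fst.comp (Primrec.snd.comp Primrec.fst)
    have g3 : Primrec fun x : (List Bool × (ℕ × List ℕ)) × (List ℕ × ℕ) => x.2.1 :=
      Primrec.fst.comp Primrec.snd
    have g4 : Primrec fun x : (List Bool × (ℕ × List ℕ)) × (List ℕ × ℕ) => x.2.2 :=
      Primrec.snd.comp Primrec.snd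
    have g5 : Primrec fun x : (List Bool × (ℕ × List ℕ)) × (List ℕ × ℕ) => x.1.2.2 :=
      Primrec.snd.comp (Primrec.snd.comp Primrec.fst)
    refine CE.and (ih.comp (g1.pair (g2.pair g3))) (CE.and (CE.of_primrec ?_)
      (CE.of_primrec ?_))
    · exact primrec_PS.comp (f := fun x : (List Bool × (ℕ × List ℕ)) × (List ℕ × ℕ) =>
        (x.1.1, (x.1.2.1, L, x.2.2))) (g1.pair (g2.pair ((Primrec.const L).pair g4)))
    · exact Primrec.eq.comp g5 (Primrec.list_cons.comp g4 g3)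

theorem ObsS_mono {w : ℕ → Bool} {k l e : ℕ} (h : k ≤ l) : ∀ {L : ℕ} {o : List ℕ},
    ObsS L (pre w k, (e, o)) → ObsS L (pre w l, (e, o)) := by
  intro L
  induction L with
  | zero => intro o h; exact h
  | succ L ih =>
    rintro o ⟨⟨q, v⟩, h1, h2, h3⟩
    exact ⟨⟨q, v⟩, ih h1, PS_mono h h2, h3⟩

theorem ObsS_unique {w : ℕ → Bool} {e k k' : ℕ} : ∀ {L : ℕ} {o o' : List ℕ},
    ObsS L (pre w k, (e, o)) → ObsS L (pre w k', (e, o')) → o = o' := by
  intro L
  induction L with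
  | zero =>
    intro o o' h h'
    exact (show o = [] from h).trans (show o' = [] from h').symm
  | succ L ih =>
    rintro o o' ⟨⟨q, v⟩, h1, h2, h3⟩ ⟨⟨q', v'⟩, h1', h2', h3'⟩
    simp only at h1 h2 h3 h1' h2' h3'
    rw [h3, h3', ih h1 h1', Part.mem_unique (mem_Phi_iff.2 ⟨_, h2⟩) (mem_Phi_iff.2 ⟨_, h2'⟩)]

theorem ObsS_of_via {w y : ℕ → Bool} {e : ℕ} (h : Via e w y) :
    ∀ L : ℕ, ∃ k, ObsS L (pre w k, (e, rv y L)) := by
  intro L
  induction L with
  | zero => exact ⟨0, rfl⟩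
  | succ L ih =>
    obtain ⟨k, hk⟩ := ih
    have h1 : (y L).toNat ∈ Phi e w L := by
      rw [h L]
      exact Part.mem_some _
    obtain ⟨l, hl⟩ := mem_Phi_iff.1 h1
    exact ⟨max k l, (rv y L, (y L).toNat), ObsS_mono (le_max_left _ _) hk,
      PS_mono (le_max_right _ _) hl, rfl⟩

theorem ambiguous_of_lists {a : ℕ → Bool} {K : ℕ} {U : ℕ → ℕ → List ℕ} {S : Set (ℕ → Bool)}
    {f : (ℕ → Bool) → ℕ → Bool} (hU : ComputableIn₂ {orc a} U)
    (hlen : ∀ i j, (U i j).length ≤ K) (hg : Guesses U S f) : AmbiguousIn a K S f := by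
  intro L
  obtain ⟨s, hs, h1, h2⟩ := exists_index (α := List ℕ)
    (R := fun x : (List ℕ × (List Bool × ℕ)) × ℕ => ∃ y : ℕ × (ℕ × List ℕ),
      (x.1.1[y.1]? = some y.2.1 ∧ ObsS L (x.1.2.1, y.2)) ∧
        (x.1.2.2 = Encodable.encode (back y.2.2) ∧ x.2 = x.1.2.2)) (by
    apply CE.exists (R := fun x : ((List ℕ × (List Bool × ℕ)) × ℕ) × (ℕ × (ℕ × List ℕ)) =>
      (x.1.1.1[x.2.1]? = some x.2.2.1 ∧ ObsS L (x.1.1.2.1, x.2.2)) ∧
        (x.1.1.2.2 = Encodable.encode (back x.2.2.2) ∧ x.1.2 = x.1.1.2.2))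
    have g1 : Primrec fun x : ((List ℕ × (List Bool × ℕ)) × ℕ) × (ℕ × (ℕ × List ℕ)) =>
        x.1.1.1 := Primrec.fst.comp (Primrec.fst.comp Primrec.fst)
    have g2 : Primrec fun x : ((List ℕ × (List Bool × ℕ)) × ℕ) × (ℕ × (ℕ × List ℕ)) =>
        x.1.1.2.1 := Primrec.fst.comp (Primrec.snd.comp (Primrec.fst.comp Primrec.fst))
    have g3 : Primrec fun x : ((List ℕ × (List Bool × ℕ)) × ℕ) × (ℕ × (ℕ × List ℕ)) =>
        x.1.1.2.2 := Primrec.snd.comp (Primrec.snd.comp (Primrec.fst.comp Primrec.fst))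
    have g4 : Primrec fun x : ((List ℕ × (List Bool × ℕ)) × ℕ) × (ℕ × (ℕ × List ℕ)) =>
        x.2.2 := Primrec.snd.comp Primrec.snd
    refine CE.and (CE.and (CE.of_primrec ?_) ((ce_ObsS L).comp (g2.pair g4)))
      (CE.of_primrec ((Primrec.eq.comp g3 (Primrec.encode.comp (primrec_back.comp
        (Primrec.snd.comp g4)))).and (Primrec.eq.comp (Primrec.snd.comp Primrec.fst) g3)))
    exact Primrec.eq.comp (Primrec.list_getElem?.comp g1 (Primrec.fst.comp Primrec.snd))
      (Primrec.option_some.comp (Primrec.fst.comp g4)))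
  refine ⟨fun i j => s (U i j), ?_, ?_⟩
  · have h3 : CEIn a (fun p : (ℕ × ℕ) × ℕ => p.2 ∈ (Part.some (s (U p.1.1 p.1.2)))) := by
      have h4 : CEIn a (fun x : (ℕ × ℕ) × List ℕ => x.2 ∈ (Part.some (U x.1.1 x.1.2))) :=
        CEIn.graph (α := ℕ × ℕ) (β := List ℕ) (f := fun p => Part.some (U p.1 p.2)) hU
      have h5 : CE (fun x : List ℕ × ℕ => x.2 ∈ (Part.some (s x.1))) :=
        CE.graph (f := fun p => Part.some (s p)) hs
      have h6 : CEIn a (fun p : (ℕ × ℕ) × ℕ => ∃ l : List ℕ,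
          l ∈ Part.some (U p.1.1 p.1.2) ∧ p.2 ∈ Part.some (s l)) := by
        apply CEIn.ex (S := fun p : ((ℕ × ℕ) × ℕ) × List ℕ =>
          p.2 ∈ Part.some (U p.1.1.1 p.1.1.2) ∧ p.1.2 ∈ Part.some (s p.2))
        refine CEIn.and ?_ (CEIn.of_ce ?_)
        · exact h4.comp (f := fun p : ((ℕ × ℕ) × ℕ) × List ℕ => (p.1.1, p.2))
            ((Primrec.fst.comp Primrec.fst).pair Primrec.snd)
        · exact h5.comp (f := fun p : ((ℕ × ℕ) × ℕ) × List ℕ => (p.2, p.1.2))
            (Primrec.snd.pair (Primrec.snd.comp Primrec.fst))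
      refine h6.of_eq fun p => ?_
      simp
    exact recursiveIn_of_ceIn h3
  · intro x hx y hy i j hi hj
    obtain ⟨e, he, hv⟩ := hg x hx y hy i j hi hj
    constructor
    · have h3 : ∀ m : ℕ, ∃ σ, ∀ e k o, (U i j)[m]? = some e → ObsS L (pre (f x) k, (e, o)) →
          back o = σ := by
        intro m
        by_cases h : ∃ e k o, (U i j)[m]? = some e ∧ ObsS L (pre (f x) k, (e, o))
        · obtain ⟨e, k, o, h4, h5⟩ := h
          refine ⟨back o, fun e' k' o' h4' h5' => ?_⟩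
          rw [h4] at h4'
          obtain rfl := Option.some.inj h4'
          rw [ObsS_unique h5 h5']
        · exact ⟨[], fun e k o h4 h5 => absurd ⟨e, k, o, h4, h5⟩ h⟩
      choose φ hφ using h3
      have h4 : {σ : List Bool | σ.length = L ∧ Enum (s (U i j)) (f x) σ} ⊆
          φ '' ((Finset.range K : Finset ℕ) : Set ℕ) := by
        rintro σ ⟨-, n, hn⟩
        obtain ⟨k, ⟨m, e', o⟩, ⟨h5, h6⟩, h7, h8⟩ := h2 _ _ _ _ hn
        simp only at h5 h6 h7 h8
        have h9 : σ = back o := Encodable.encode_injective (h8.trans h7)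
        refine ⟨m, ?_, (hφ m e' k o h5 h6).symm.trans h9.symm⟩
        have h10 := (List.getElem?_eq_some_iff.1 h5).1
        simpa using lt_of_lt_of_le h10 (hlen _ _)
      refine (Set.encard_le_encard h4).trans ((Set.encard_image_le _ _).trans ?_)
      rw [Set.encard_coe_eq_coe_finsetCard]
      simp
    · obtain ⟨m, hm⟩ := List.mem_iff_getElem?.1 he
      obtain ⟨k, hk⟩ := ObsS_of_via hv L
      refine ⟨Encodable.encode (pre (f y) L), ?_⟩
      have h3 := h1 (U i j) (f x) (Encodable.encode (pre (f y) L))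
        (Encodable.encode (pre (f y) L)) ?_ ⟨k, (m, (e, rv (f y) L)), ⟨hm, hk⟩, ?_, rfl⟩
      · rw [h3]
        exact Part.mem_some _
      · rintro k' y' ⟨q, -, -, h4⟩
        exact h4
      · simp only
        rw [back_rv]

end Pool.Agent.H.MP_8387fc_lc.BA
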