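import Mathlib
import Pool.Agent.H.MP_8387fc_lc.BA.Lists

/-!
Composition of indices.
-/

set_option linter.all false

namespace Pool.Agent.H.MP_8387fc_lc.BA

open Nat.Partrec (Code)
open Pool.Agent.H.MP_95c08c_lc

/-- All values of the program `e` on the string `σ` at the places below `|τ|` are there and agree
with `τ`. -/
def Reads (z : (List Bool × ℕ) × List Bool) : Prop :=
  ¬ ∃ k < z.2.length, ¬ PS (z.1.1, (z.1.2, k, ((z.2[k]?).getD false).toNat))

theorem primrec_Reads : PrimrecPred Reads := by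
  apply PrimrecPred.not
  have h1 : PrimrecPred fun y : ((List Bool × ℕ) × List Bool) × ℕ =>
      ¬ PS (y.1.1.1, (y.1.1.2, y.2, ((y.1.2[y.2]?).getD false).toNat)) := by
    apply PrimrecPred.not
    have g1 : Primrec fun y : ((List Bool × ℕ) × List Bool) × ℕ => y.1.1.1 :=
      Primrec.fst.comp (Primrec.fst.comp Primrec.fst)
    have g2 : Primrec fun y : ((List Bool × ℕ) × List Bool) × ℕ => y.1.1.2 :=
      Primrec.snd.comp (Primrec.fst.comp Primrec.fst)
    have g3 : Primrec fun y : ((List Bool × ℕ) × List Bool) × ℕ =>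
        ((y.1.2[y.2]?).getD false).toNat :=
      (Primrec.dom_bool Bool.toNat).comp (Primrec.option_getD.comp
        (Primrec.list_getElem?.comp (Primrec.snd.comp Primrec.fst) Primrec.snd)
        (Primrec.const false))
    exact primrec_PS.comp (f := fun y : ((List Bool × ℕ) × List Bool) × ℕ =>
      (y.1.1.1, (y.1.1.2, y.2, ((y.1.2[y.2]?).getD false).toNat)))
      (g1.pair (g2.pair (Primrec.snd.pair g3)))
  exact (primrecPred_exists_lt h1).comp (f := fun z : (List Bool × ℕ) × List Bool =>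
    (z, z.2.length)) (Primrec.id.pair (Primrec.list_length.comp Primrec.snd))

theorem Reads_sound {x y : ℕ → Bool} {e k : ℕ} {τ : List Bool} (h : Via e x y)
    (hr : Reads ((pre x k, e), τ)) : τ = pre y τ.length := by
  unfold Reads at hr
  simp only [not_exists, not_and, not_not] at hr
  apply List.ext_getElem?
  intro n
  rw [pre_getElem?]
  by_cases hn : n < τ.length
  · rw [if_pos hn, List.getElem?_eq_getElem hn]
    have h1 := hr n hn
    rw [List.getElem?_eq_getElem hn, Option.getD_some] at h1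
    have h2 : (τ[n]).toNat ∈ Phi e x n := mem_Phi_iff.2 ⟨k, h1⟩
    rw [h n] at h2
    have h3 := Part.mem_some_iff.1 h2
    congr 1
    revert h3
    cases τ[n] <;> cases y n <;> simp
  · rw [if_neg hn, List.getElem?_eq_none (not_lt.1 hn)]

theorem Reads_complete {x y : ℕ → Bool} {e : ℕ} (h : Via e x y) (m : ℕ) :
    ∃ k, ∀ l, k ≤ l → Reads ((pre x l, e), pre y m) := by
  have h1 : ∀ n, ∃ k, PS (pre x k, (e, n, (y n).toNat)) := fun n =>
    mem_Phi_iff.1 (by rw [h n]; exact Part.mem_some _)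
  choose K hK using h1
  refine ⟨(Finset.range m).sup K, fun l hl => ?_⟩
  unfold Reads
  simp only [not_exists, not_and, not_not, pre_length]
  intro n hn
  rw [pre_getElem?, if_pos hn, Option.getD_some]
  exact PS_mono ((Finset.le_sup (f := K) (Finset.mem_range.2 hn)).trans hl) (hK n)

theorem exists_comp : ∃ c : ℕ → ℕ → ℕ, Primrec₂ c ∧ ∀ d e (x y z : ℕ → Bool),
    Via d x y → Via e y z → Via (c d e) x z := by
  obtain ⟨s, hs, h, -⟩ := exists_index_prim (α := ℕ × ℕ)
    (R := fun x : ((ℕ × ℕ) × (List Bool × ℕ)) × ℕ => ∃ τ : List Bool,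
      Reads ((x.1.2.1, x.1.1.1), τ) ∧ PS (τ, (x.1.1.2, x.1.2.2, x.2))) (by
    apply CE.exists (R := fun x : (((ℕ × ℕ) × (List Bool × ℕ)) × ℕ) × List Bool =>
      Reads ((x.1.1.2.1, x.1.1.1.1), x.2) ∧ PS (x.2, (x.1.1.1.2, x.1.1.2.2, x.1.2)))
    have g1 : Primrec fun x : (((ℕ × ℕ) × (List Bool × ℕ)) × ℕ) × List Bool => x.1.1.1 :=
      Primrec.fst.comp (Primrec.fst.comp Primrec.fst)
    have g2 : Primrec fun x : (((ℕ × ℕ) × (List Bool × ℕ)) × ℕ) × List Bool => x.1.1.2 :=
      Primrec.snd.comp (Primrec.fst.comp Primrec.fst)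
    refine CE.of_primrec (PrimrecPred.and ?_ ?_)
    · exact primrec_Reads.comp (f := fun x : (((ℕ × ℕ) × (List Bool × ℕ)) × ℕ) × List Bool =>
        ((x.1.1.2.1, x.1.1.1.1), x.2))
        (((Primrec.fst.comp g2).pair (Primrec.fst.comp g1)).pair Primrec.snd)
    · exact primrec_PS.comp (f := fun x : (((ℕ × ℕ) × (List Bool × ℕ)) × ℕ) × List Bool =>
        (x.2, (x.1.1.1.2, x.1.1.2.2, x.1.2)))
        (Primrec.snd.pair ((Primrec.snd.comp g1).pair ((Primrec.snd.comp g2).pair
          (Primrec.snd.comp Primrec.fst)))))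
  refine ⟨fun d e => s (d, e), hs, fun d e x y z hd he n => h (d, e) x n _ ?_ ?_⟩
  · rintro k v ⟨τ, h1, h2⟩
    simp only at h1 h2
    have h3 := Reads_sound hd h1
    rw [h3] at h2
    have h4 : v ∈ Phi e y n := mem_Phi_iff.2 ⟨_, h2⟩
    rw [he n] at h4
    exact Part.mem_some_iff.1 h4
  · obtain ⟨m, hm⟩ := mem_Phi_iff.1 (show (z n).toNat ∈ Phi e y n by
      rw [he n]
      exact Part.mem_some _)
    obtain ⟨k, hk⟩ := Reads_complete hd m
    exact ⟨k, pre y m, hk k le_rfl, hm⟩

end Pool.Agent.H.MP_8387fc_lc.BA
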