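import Mathlib
import Pool.Agent.H.MP_8387fc_lc.BA.Lists

/-!
A function with at most `K` values, all of the same degree, has ambiguity at most `K`.
-/

set_option linter.all false

namespace Pool.Agent.H.MP_8387fc_lc.BA

open Nat.Partrec (Code)
open Pool.Agent.H.MP_95c08c_lc

theorem ambiguous_of_values {a : ℕ → Bool} {K : ℕ} {S : Set (ℕ → Bool)}
    {f : (ℕ → Bool) → ℕ → Bool} (hd : ∀ x ∈ S, ∀ y ∈ S, f y ∈ deg (f x))
    (hK : (f '' S).encard ≤ K) : AmbiguousIn a K S f := by
  classical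
  have hfin : (f '' S).Finite := Set.finite_of_encard_le_coe hK
  set V : Finset (ℕ → Bool) := hfin.toFinset with hV
  have hVm : ∀ v, v ∈ V ↔ v ∈ f '' S := fun v => hfin.mem_toFinset
  have hcard : V.card ≤ K := by
    rw [hfin.encard_eq_coe_toFinset_card] at hK
    exact_mod_cast hK
  obtain ⟨L, hL⟩ := exists_sep (fun v : ℕ → Bool => v) V (fun _ _ _ _ h => h)
  have hj : ∀ v, ∃ j, v ∈ V → ∀ v' ∈ V, Via j v' v := by
    intro v
    by_cases hv : v ∈ V
    · have hb : ∀ v', ∃ b, v' ∈ V → Via b v' v := by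
        intro v'
        by_cases hv' : v' ∈ V
        · obtain ⟨x, hx, rfl⟩ := (hVm v).1 hv
          obtain ⟨x', hx', rfl⟩ := (hVm _).1 hv'
          obtain ⟨b, hb⟩ := via_of_red (hd x hx x' hx').1
          exact ⟨b, fun _ => hb⟩
        · exact ⟨0, fun h => absurd h hv'⟩
      choose b hb using hb
      obtain ⟨t, ht, ht2⟩ := exists_table (α := List Bool) (β := ℕ) 0 (fun v' => pre v' L) b V
        (fun c hc c' hc' h => hL c hc c' hc' (pre_inj h))
      obtain ⟨j, hj⟩ := exists_recogniser ht L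
      refine ⟨j, fun _ v' hv' => hj v' v ?_⟩
      rw [ht2 v' hv']
      exact hb v' hv'
    · exact ⟨0, fun h => absurd h hv⟩
  choose j hj using hj
  refine ambiguous_of_lists (U := fun _ _ => V.toList.map j) ?_ ?_ ?_
  · exact (Computable.const (V.toList.map j)).to₂.computableIn
  · intro _ _
    simpa using hcard
  · intro x hx y hy _ _ _ _
    have hxV : f x ∈ V := (hVm _).2 ⟨x, hx, rfl⟩
    have hyV : f y ∈ V := (hVm _).2 ⟨y, hy, rfl⟩
    exact ⟨j (f y), List.mem_map.2 ⟨f y, Finset.mem_toList.2 hyV, rfl⟩, hj (f y) hyV _ hxV⟩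

end Pool.Agent.H.MP_8387fc_lc.BA
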