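import Mathlib
import Pool.Agent.H.MP_8387fc_lc.BA.Comp

/-!
The coding argument for candidate lists.
-/

set_option linter.all false

namespace Pool.Agent.H.MP_8387fc_lc.BA

open Nat.Partrec (Code)
open Pool.Agent.H.MP_95c08c_lc

theorem core {a w z : ℕ → Bool} {K : ℕ} (A : ℕ → ℕ → Bool)
    (hA : ∀ c < K + 1, ∀ c' < K + 1, A c = A c' → c = c')
    (hW : ∀ F : List Bool → ℕ, Primrec F → (∀ c, F c < K + 1) →
      ∃ W : List ℕ → List ℕ, ComputableIn {orc a} W ∧ (∀ m, (W m).length ≤ K) ∧
        ∀ m : List ℕ, m.length = K → ∃ e ∈ W m, Via e w (A (F (m.map z)))) :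
    Red z (join w a) := by
  classical
  set T : Finset ℕ := Finset.range (K + 1) with hT
  have hTm : ∀ c, c ∈ T ↔ c < K + 1 := fun c => by simp [hT]
  obtain ⟨L2, hL2⟩ := exists_sep A T (fun c hc c' hc' h =>
    hA c ((hTm c).1 hc) c' ((hTm c').1 hc') h)
  obtain ⟨tc, htc, htc2⟩ := exists_table (α := List Bool) (β := ℕ) 0
    (fun c => pre (A c) L2) (fun c => c) T (fun c hc c' hc' h => hL2 c hc c' hc' (pre_inj h))
  -- the queries
  set TK : Finset (List Bool) := (List.finite_length_eq Bool K).toFinset with hTK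
  have hTKm : ∀ c, c ∈ TK ↔ c.length = K := fun c => by simp [hTK]
  have hF : ∀ q : Fin (K + 1) → TK, ∃ F : List Bool → ℕ, Primrec F ∧ (∀ c, F c < K + 1) ∧
      (Function.Injective q → ∀ i, F (q i : List Bool) = i) := by
    intro q
    let F0 : List Bool → ℕ := fun c => if h : ∃ i, (q i : List Bool) = c then
      (Classical.choose h : Fin (K + 1)).val else 0
    obtain ⟨F, hF, hF2⟩ := exists_table (α := List Bool) (β := ℕ) 0 (fun c => c) F0 TK
      (fun c _ c' _ h => h)
    refine ⟨fun c => min (F c) K, Primrec.nat_min.comp hF (Primrec.const K),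
      fun c => Nat.lt_succ_of_le (min_le_right _ _), fun hq i => ?_⟩
    have h : ∃ i', (q i' : List Bool) = q i := ⟨i, rfl⟩
    have h2 := Classical.choose_spec h
    have h3 : F (q i : List Bool) = i := by
      rw [hF2 _ (q i).2]
      simp only [F0, dif_pos h]
      exact congrArg Fin.val (hq (Subtype.ext h2))
    simp only [h3]
    exact min_eq_left (Nat.lt_succ_iff.1 i.2)
  choose F hFp hFlt hFinj using hF
  have hW' : ∀ q, ∃ W : List ℕ → List ℕ, ComputableIn {orc a} W ∧ (∀ m, (W m).length ≤ K) ∧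
        ∀ m : List ℕ, m.length = K → ∃ e ∈ W m, Via e w (A (F q (m.map z))) :=
    fun q => hW (F q) (hFp q) (hFlt q)
  choose W hWc hWl hWt using hW'
  have hwl : Red w (join w a) := red_join_left _ _
  have hwr : Red a (join w a) := red_join_right _ _
  -- the candidates
  let D : (Fin (K + 1) → TK) → List ℕ × ℕ → Prop := fun q x => ∃ y : ℕ × (ℕ × List ℕ),
    (W q x.1)[y.1]? = some y.2.1 ∧ ((∃ k, ObsS L2 (pre w k, y.2)) ∧ tc (back y.2.2) = x.2)
  have hD : ∀ q, CEIn (join w a) (D q) := by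
    intro q
    have h1 : CEIn a (fun x : List ℕ × List ℕ => x.2 ∈ (Part.some (W q x.1))) :=
      CEIn.graph (α := List ℕ) (β := List ℕ) (f := fun p => Part.some (W q p)) (hWc q)
    have h4 : CEIn a (fun x : (List ℕ × ℕ) × ℕ => (W q x.1.1)[x.1.2]? = some x.2) := by
      have h3 : CEIn a (fun x : (List ℕ × ℕ) × ℕ =>
          ∃ l : List ℕ, l ∈ Part.some (W q x.1.1) ∧ l[x.1.2]? = some x.2) := by
        apply CEIn.ex (S := fun x : ((List ℕ × ℕ) × ℕ) × List ℕ =>
          x.2 ∈ Part.some (W q x.1.1.1) ∧ x.2[x.1.1.2]? = some x.1.2)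
        refine CEIn.and ?_ (CEIn.of_primrec ?_)
        · exact h1.comp (f := fun x : ((List ℕ × ℕ) × ℕ) × List ℕ => (x.1.1.1, x.2))
            ((Primrec.fst.comp (Primrec.fst.comp Primrec.fst)).pair Primrec.snd)
        · exact Primrec.eq.comp
            (Primrec.list_getElem?.comp Primrec.snd
              (Primrec.snd.comp (Primrec.fst.comp Primrec.fst)))
            (Primrec.option_some.comp (Primrec.snd.comp Primrec.fst))
      refine h3.of_eq fun x => ?_
      simp
    have h5 : CEIn w (fun p : ℕ × List ℕ => ∃ k, ObsS L2 (pre w k, p)) :=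
      ⟨ObsS L2, ce_ObsS L2, fun p => Iff.rfl⟩
    apply CEIn.ex (S := fun x : (List ℕ × ℕ) × (ℕ × (ℕ × List ℕ)) =>
      (W q x.1.1)[x.2.1]? = some x.2.2.1 ∧
        ((∃ k, ObsS L2 (pre w k, x.2.2)) ∧ tc (back x.2.2.2) = x.1.2))
    refine CEIn.and (ceIn_of_red ?_ hwr) (CEIn.and (ceIn_of_red ?_ hwl) (CEIn.of_primrec ?_))
    · exact h4.comp (f := fun x : (List ℕ × ℕ) × (ℕ × (ℕ × List ℕ)) =>
        ((x.1.1, x.2.1), x.2.2.1))
        (((Primrec.fst.comp Primrec.fst).pair (Primrec.fst.comp Primrec.snd)).pair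
          (Primrec.fst.comp (Primrec.snd.comp Primrec.snd)))
    · exact h5.comp (Primrec.snd.comp Primrec.snd)
    · exact Primrec.eq.comp (htc.comp (primrec_back.comp
        (Primrec.snd.comp (Primrec.snd.comp Primrec.snd)))) (Primrec.snd.comp Primrec.fst)
  have hDcard : ∀ q m, {i | D q (m, i)}.encard ≤ K := by
    intro q m
    have h1 : ∀ l : ℕ, ∃ i, ∀ i' e k o, (W q m)[l]? = some e → ObsS L2 (pre w k, (e, o)) →
        tc (back o) = i' → i' = i := by
      intro l
      by_cases h : ∃ e k o, (W q m)[l]? = some e ∧ ObsS L2 (pre w k, (e, o))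
      · obtain ⟨e, k, o, h1, h2⟩ := h
        refine ⟨tc (back o), fun i' e' k' o' h1' h2' h3' => ?_⟩
        rw [h1] at h1'
        obtain rfl := Option.some.inj h1'
        rw [← h3', ObsS_unique h2 h2']
      · exact ⟨0, fun i' e k o h1 h2 _ => absurd ⟨e, k, o, h1, h2⟩ h⟩
    choose φ hφ using h1
    have h2 : {i | D q (m, i)} ⊆ φ '' ((Finset.range K : Finset ℕ) : Set ℕ) := by
      rintro i ⟨⟨l, e, o⟩, h3, ⟨k, h4⟩, h5⟩
      simp only at h3 h4 h5
      refine ⟨l, ?_, (hφ l i e k o h3 h4 h5).symm⟩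
      have h6 := (List.getElem?_eq_some_iff.1 h3).1
      simpa using lt_of_lt_of_le h6 (hWl _ _)
    refine (Set.encard_le_encard h2).trans ((Set.encard_image_le _ _).trans ?_)
    rw [Set.encard_coe_eq_coe_finsetCard]
    simp
  have hDtrue : ∀ q m, m.length = K → D q (m, F q (m.map z)) := by
    intro q m hm
    obtain ⟨e, he, hv⟩ := hWt q m hm
    obtain ⟨l, hl⟩ := List.mem_iff_getElem?.1 he
    obtain ⟨k, hk⟩ := ObsS_of_via hv L2
    refine ⟨(l, (e, rv (A (F q (m.map z))) L2)), hl, ⟨k, hk⟩, ?_⟩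
    simp only
    rw [back_rv]
    exact htc2 _ ((hTm _).2 (hFlt q _))
  refine nonspeedup K (fun x => x.2.length = K ∧
    ∀ q ∈ (Finset.univ : Finset (Fin (K + 1) → TK)), D q (x.1, F q x.2)) ?_ ?_ ?_
  · refine CEIn.and (CEIn.of_primrec (Primrec.eq.comp (Primrec.list_length.comp Primrec.snd)
      (Primrec.const K))) ?_
    apply ceIn_forall (P := fun q (x : List ℕ × List Bool) => D q (x.1, F q x.2))
    intro q
    exact (hD q).comp (Primrec.fst.pair ((hFp q).comp Primrec.snd))
  · intro m hm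
    by_contra hcon
    obtain ⟨e, he, hes⟩ := exists_inj hcon
    simp only [Set.mem_setOf_eq] at hes
    let q : Fin (K + 1) → TK := fun i => ⟨e i, (hTKm _).2 (hes i).1⟩
    have hq : Function.Injective q := fun i i' h => he (congrArg Subtype.val h)
    have h1 : (Set.range fun i : Fin (K + 1) => (i : ℕ)) ⊆ {i | D q (m, i)} := by
      rintro _ ⟨i, rfl⟩
      have h2 := (hes i).2 q (Finset.mem_univ _)
      have h3 : F q (e i) = i := hFinj q hq i
      rw [h3] at h2
      exact h2
    have h2 := (Set.encard_le_encard h1).trans (hDcard q m)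
    have h3 : (Set.range fun i : Fin (K + 1) => (i : ℕ)).encard = (K + 1 : ℕ) := by
      rw [← Set.image_univ, Function.Injective.encard_image Fin.val_injective,
        Set.encard_univ]
      simp
    rw [h3] at h2
    have h4 : K + 1 ≤ K := by exact_mod_cast h2
    omega
  · intro m hm
    exact ⟨by simp [hm], fun q _ => hDtrue q m hm⟩

end Pool.Agent.H.MP_8387fc_lc.BA
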