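import Mathlib
import Pool.Agent.H.MP_8387fc_lc.BA.Converse

/-!
Functions of bounded ambiguity: summary.
-/

set_option linter.all false

namespace Pool.Agent.H.MP_8387fc_lc.BA

open Nat.Partrec (Code)
open Pool.Agent.H.MP_95c08c_lc

theorem red_of_computable {a : ℕ → Bool} (h : Computable a) (w : ℕ → Bool) : Red a w := by
  have h1 : Computable fun n => (a n).toNat := (Primrec.dom_bool Bool.toNat).to_comp.comp h
  have h2 : Partrec (orc a) := h1
  exact h2.turingReducible

theorem red_of_join {a : ℕ → Bool} (h : Computable a) {x w : ℕ → Bool} (h1 : Red x (join w a)) :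
    Red x w := h1.trans (join_red (Red.refl w) (red_of_computable h w))

/-- For functions from a degree to a degree which are not increasing, the ambiguity is the number
of the values. -/
theorem ambiguous_iff {a : ℕ → Bool} {K : ℕ} {x : ℕ → Bool} {S : Set (ℕ → Bool)}
    {f : (ℕ → Bool) → ℕ → Bool} (hS : S ⊆ deg x) (hd : ∀ y ∈ S, ∀ z ∈ S, f z ∈ deg (f y))
    (hn : ∀ y ∈ S, ¬ Red y (join (f y) a)) : AmbiguousIn a K S f ↔ (f '' S).encard ≤ K := by
  refine ⟨fun hf => ?_, ambiguous_of_values hd⟩
  rcases S.eq_empty_or_nonempty with rfl | ⟨y, hy⟩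
  · simp
  · have h1 := (local_relative hf hy).resolve_left (hn y hy)
    have h2 : S ∩ deg y = S := by
      rw [deg_eq (hS hy)]
      exact Set.inter_eq_left.2 hS
    rwa [h2] at h1

end Pool.Agent.H.MP_8387fc_lc.BA
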