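import Mathlib
import Pool.Agent.H.MP_8387fc_lc.BA.Core
import Pool.Agent.H.MP_95c08c_lc.Universal

/-!
Tagged reals and a universal pair of indices.
-/

set_option linter.all false

namespace Pool.Agent.H.MP_8387fc_lc.BA

open Nat.Partrec (Code)
open Pool.Agent.H.MP_95c08c_lc

/-- The real `1^p 0 z`. -/
def tag (p : ℕ) (z : ℕ → Bool) : ℕ → Bool := fun n =>
  if n < p then true else if n = p then false else z (n - p - 1)

/-- The string `1^p 0 u`. -/
def tg (p : ℕ) (u : List Bool) : List Bool := List.replicate p true ++ false :: u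

theorem primrec_tg : Primrec fun x : ℕ × List Bool => tg x.1 x.2 :=
  Primrec.list_append.comp (Univ.primrec_replicate.comp Primrec.fst)
    (Primrec.list_cons.comp (Primrec.const false) Primrec.snd)

theorem tg_pre (p : ℕ) (z : ℕ → Bool) (k : ℕ) : tg p (pre z k) = pre (tag p z) (p + 1 + k) := by
  apply List.ext_getElem?
  intro n
  rw [pre_getElem?]
  unfold tg tag
  rcases lt_trichotomy n p with h | h | h
  · rw [List.getElem?_append_left (by simpa using h), List.getElem?_replicate, if_pos h,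
      if_pos (by omega), if_pos h]
  · subst h
    rw [List.getElem?_append_right (by simp)]
    simp
    omega
  · rw [List.getElem?_append_right (by simpa using h.le)]
    have e : n - (List.replicate p true).length = (n - p - 1) + 1 := by
      simp
      omega
    rw [e, List.getElem?_cons_succ, pre_getElem?]
    by_cases h1 : n - p - 1 < k
    · rw [if_pos h1, if_pos (by omega), if_neg (by omega), if_neg (by omega)]
    · rw [if_neg h1, if_neg (by omega)]

theorem eq_of_tg {p p0 : ℕ} {u : List Bool} {z : ℕ → Bool} {k : ℕ}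
    (h : tg p u = pre (tag p0 z) k) : p = p0 ∧ u = pre z u.length := by
  have h1 : tg p u <+: tg p0 (pre z k) := by
    rw [h, tg_pre]
    exact pre_prefix _ (by omega)
  obtain ⟨h2, h3⟩ := Univ.replicate_aux h1
  exact ⟨h2, prefix_pre z h3⟩

theorem tag_red (p : ℕ) (z : ℕ → Bool) : Red (tag p z) z := by
  apply red_of_ceIn
  have h1 : CEIn z (fun x : ℕ × ℕ => ((x.1 < p ∧ x.2 = 1) ∨ (x.1 = p ∧ x.2 = 0)) ∨
      (p < x.1 ∧ x.2 ∈ orc z (x.1 - p - 1))) := by
    refine CEIn.or (CEIn.of_primrec ?_) (CEIn.and (CEIn.of_primrec ?_) ?_)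
    · exact ((Primrec.nat_lt.comp Primrec.fst (Primrec.const p)).and
        (Primrec.eq.comp Primrec.snd (Primrec.const 1))).or
        ((Primrec.eq.comp Primrec.fst (Primrec.const p)).and
        (Primrec.eq.comp Primrec.snd (Primrec.const 0)))
    · exact Primrec.nat_lt.comp (Primrec.const p) Primrec.fst
    · exact (ceIn_orc z).comp (f := fun x : ℕ × ℕ => (x.1 - p - 1, x.2))
        ((Primrec.nat_sub.comp (Primrec.nat_sub.comp Primrec.fst (Primrec.const p))
          (Primrec.const 1)).pair Primrec.snd)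
  refine h1.of_eq fun x => ?_
  simp only [orc, Part.mem_some_iff, tag]
  rcases lt_trichotomy x.1 p with h | h | h
  · simp [h, h.ne, h.le, not_lt.2 h.le]
  · simp [h]
  · simp [h, h.ne', not_lt.2 h.le]

theorem red_tag (p : ℕ) (z : ℕ → Bool) : Red z (tag p z) := by
  apply red_of_ceIn
  refine ((ceIn_orc (tag p z)).comp (f := fun x : ℕ × ℕ => (x.1 + (p + 1), x.2))
    ((Primrec.nat_add.comp Primrec.fst (Primrec.const (p + 1))).pair Primrec.snd)).of_eq
    fun x => ?_
  have h1 : ¬ x.1 + (p + 1) < p := by omega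
  have h2 : ¬ x.1 + (p + 1) = p := by omega
  have h3 : x.1 + (p + 1) - p - 1 = x.1 := by omega
  simp only [orc, tag, if_neg h1, if_neg h2, h3]

/-- The data coded in a tag: two pairs of a list of places and a program. -/
abbrev Data : Type := (List ℕ × ℕ) × (List ℕ × ℕ)

theorem ce_eval : CE (fun x : (ℕ × ℕ) × ℕ =>
    x.2 ∈ Code.eval (Denumerable.ofNat Code x.1.1) x.1.2) := by
  have h : Partrec fun x : ℕ × ℕ => Code.eval (Denumerable.ofNat Code x.1) x.2 :=
    Code.eval_part.comp ((Computable.ofNat Code).comp Computable.fst) Computable.snd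
  exact CE.graph h

/-- The output at the place `n` of the real `1^p 0 Φ_r(u)`. -/
def Out (x : (ℕ × List Bool) × (ℕ × (ℕ × ℕ))) : Prop :=
  ((x.2.2.1 < x.1.1 ∧ x.2.2.2 = 1) ∨ (x.2.2.1 = x.1.1 ∧ x.2.2.2 = 0)) ∨
    (x.1.1 < x.2.2.1 ∧ PS (x.1.2, (x.2.1, x.2.2.1 - x.1.1 - 1, x.2.2.2)))

theorem primrec_Out : PrimrecPred Out := by
  have g1 : Primrec fun x : (ℕ × List Bool) × (ℕ × (ℕ × ℕ)) => x.1.1 :=
    Primrec.fst.comp Primrec.fst
  have g2 : Primrec fun x : (ℕ × List Bool) × (ℕ × (ℕ × ℕ)) => x.1.2 :=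
    Primrec.snd.comp Primrec.fst
  have g3 : Primrec fun x : (ℕ × List Bool) × (ℕ × (ℕ × ℕ)) => x.2.1 :=
    Primrec.fst.comp Primrec.snd
  have g4 : Primrec fun x : (ℕ × List Bool) × (ℕ × (ℕ × ℕ)) => x.2.2.1 :=
    Primrec.fst.comp (Primrec.snd.comp Primrec.snd)
  have g5 : Primrec fun x : (ℕ × List Bool) × (ℕ × (ℕ × ℕ)) => x.2.2.2 :=
    Primrec.snd.comp (Primrec.snd.comp Primrec.snd)
  refine PrimrecPred.or (PrimrecPred.or ?_ ?_) (PrimrecPred.and ?_ ?_)
  · exact (Primrec.nat_lt.comp g4 g1).and (Primrec.eq.comp g5 (Primrec.const 1))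
  · exact (Primrec.eq.comp g4 g1).and (Primrec.eq.comp g5 (Primrec.const 0))
  · exact Primrec.nat_lt.comp g1 g4
  · exact primrec_PS.comp (f := fun x : (ℕ × List Bool) × (ℕ × (ℕ × ℕ)) =>
      (x.1.2, (x.2.1, x.2.2.1 - x.1.1 - 1, x.2.2.2)))
      (g2.pair (g3.pair ((Primrec.nat_sub.comp (Primrec.nat_sub.comp g4 g1)
        (Primrec.const 1)).pair g5)))

/-- The universal program for a selector. -/
theorem exists_univ {sel : Data → List ℕ × ℕ} (hsel : Primrec sel) :
    ∃ g : ℕ, ∀ (d : Data) (r : ℕ) (z y : ℕ → Bool),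
      r ∈ Code.eval (Denumerable.ofNat Code (sel d).2) (Encodable.encode ((sel d).1.map z)) →
      Via r z y → Via g (tag (Encodable.encode d) z) (tag (Encodable.encode d) y) := by
  obtain ⟨s, -, h, -⟩ := exists_index (α := Unit)
    (R := fun x : (Unit × (List Bool × ℕ)) × ℕ =>
      ∃ y : (ℕ × List Bool) × (Data × (List Bool × ℕ)),
        ((x.1.2.1 = tg y.1.1 y.1.2 ∧ Encodable.encode y.2.1 = y.1.1) ∧
          (sel y.2.1).1.map (fun i => y.1.2[i]?) = y.2.2.1.map some) ∧
        (y.2.2.2 ∈ Code.eval (Denumerable.ofNat Code (sel y.2.1).2)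
          (Encodable.encode y.2.2.1) ∧ Out (y.1, (y.2.2.2, (x.1.2.2, x.2))))) (by
    apply CE.exists (R := fun x : ((Unit × (List Bool × ℕ)) × ℕ) ×
        ((ℕ × List Bool) × (Data × (List Bool × ℕ))) =>
        ((x.1.1.2.1 = tg x.2.1.1 x.2.1.2 ∧ Encodable.encode x.2.2.1 = x.2.1.1) ∧
          (sel x.2.2.1).1.map (fun i => x.2.1.2[i]?) = x.2.2.2.1.map some) ∧
        (x.2.2.2.2 ∈ Code.eval (Denumerable.ofNat Code (sel x.2.2.1).2)
          (Encodable.encode x.2.2.2.1) ∧ Out (x.2.1, (x.2.2.2.2, (x.1.1.2.2, x.1.2)))))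
    have g1 : Primrec fun x : ((Unit × (List Bool × ℕ)) × ℕ) ×
        ((ℕ × List Bool) × (Data × (List Bool × ℕ))) => x.1.1.2.1 :=
      Primrec.fst.comp (Primrec.snd.comp (Primrec.fst.comp Primrec.fst))
    have g2 : Primrec fun x : ((Unit × (List Bool × ℕ)) × ℕ) ×
        ((ℕ × List Bool) × (Data × (List Bool × ℕ))) => x.2.1 :=
      Primrec.fst.comp Primrec.snd
    have g3 : Primrec fun x : ((Unit × (List Bool × ℕ)) × ℕ) ×
        ((ℕ × List Bool) × (Data × (List Bool × ℕ))) => x.2.2.1 :=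
      Primrec.fst.comp (Primrec.snd.comp Primrec.snd)
    have g4 : Primrec fun x : ((Unit × (List Bool × ℕ)) × ℕ) ×
        ((ℕ × List Bool) × (Data × (List Bool × ℕ))) => x.2.2.2.1 :=
      Primrec.fst.comp (Primrec.snd.comp (Primrec.snd.comp Primrec.snd))
    have g5 : Primrec fun x : ((Unit × (List Bool × ℕ)) × ℕ) ×
        ((ℕ × List Bool) × (Data × (List Bool × ℕ))) => x.2.2.2.2 :=
      Primrec.snd.comp (Primrec.snd.comp (Primrec.snd.comp Primrec.snd))
    have g6 : Primrec fun x : ((Unit × (List Bool × ℕ)) × ℕ) ×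
        ((ℕ × List Bool) × (Data × (List Bool × ℕ))) => x.1.1.2.2 :=
      Primrec.snd.comp (Primrec.snd.comp (Primrec.fst.comp Primrec.fst))
    have g7 : Primrec fun x : ((Unit × (List Bool × ℕ)) × ℕ) ×
        ((ℕ × List Bool) × (Data × (List Bool × ℕ))) => x.1.2 :=
      Primrec.snd.comp Primrec.fst
    refine CE.and (CE.of_primrec (PrimrecPred.and (PrimrecPred.and ?_ ?_) ?_))
      (CE.and ?_ (CE.of_primrec ?_))
    · exact Primrec.eq.comp g1 (primrec_tg.comp g2)
    · exact Primrec.eq.comp (Primrec.encode.comp g3) (Primrec.fst.comp g2)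
    · exact primrec_read.comp (f := fun x : ((Unit × (List Bool × ℕ)) × ℕ) ×
        ((ℕ × List Bool) × (Data × (List Bool × ℕ))) =>
        ((x.2.1.2, (sel x.2.2.1).1), x.2.2.2.1))
        (((Primrec.snd.comp g2).pair (Primrec.fst.comp (hsel.comp g3))).pair g4)
    · exact ce_eval.comp (f := fun x : ((Unit × (List Bool × ℕ)) × ℕ) ×
        ((ℕ × List Bool) × (Data × (List Bool × ℕ))) =>
        (((sel x.2.2.1).2, Encodable.encode x.2.2.2.1), x.2.2.2.2))
        (((Primrec.snd.comp (hsel.comp g3)).pair (Primrec.encode.comp g4)).pair g5)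
    · exact primrec_Out.comp (f := fun x : ((Unit × (List Bool × ℕ)) × ℕ) ×
        ((ℕ × List Bool) × (Data × (List Bool × ℕ))) =>
        (x.2.1, (x.2.2.2.2, (x.1.1.2.2, x.1.2))))
        (g2.pair (g5.pair (g6.pair g7))))
  refine ⟨s (), fun d r z y hr hy n => h () _ n _ ?_ ?_⟩
  · rintro k v ⟨⟨⟨p, u⟩, d', c, r'⟩, ⟨⟨h1, h2⟩, h3⟩, h4, h5⟩
    simp only at h1 h2 h3 h4 h5
    obtain ⟨h6, h7⟩ := eq_of_tg h1.symm
    have h8 : d' = d := Encodable.encode_injective (h2.trans h6)
    subst h8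
    rw [h7] at h3
    obtain ⟨-, h9⟩ := read_pre.1 h3
    rw [h9] at h4
    obtain rfl := Part.mem_unique h4 hr
    rw [h6, h7] at h5
    unfold Out at h5
    simp only at h5
    unfold tag
    rcases h5 with (⟨h10, rfl⟩ | ⟨h10, rfl⟩) | ⟨h10, h11⟩
    · rw [if_pos h10]
      rfl
    · rw [if_neg (by omega), if_pos h10]
      rfl
    · rw [if_neg (by omega), if_neg (by omega)]
      have h12 : v ∈ Phi r' z (n - Encodable.encode d' - 1) := mem_Phi_iff.2 ⟨_, h11⟩
      rw [hy _] at h12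
      exact Part.mem_some_iff.1 h12
  · obtain ⟨k1, hk1⟩ := exists_bound (sel d).1
    obtain ⟨k2, hk2⟩ := mem_Phi_iff.1 (show (y (n - Encodable.encode d - 1)).toNat ∈
      Phi r z (n - Encodable.encode d - 1) by
        rw [hy _]
        exact Part.mem_some _)
    refine ⟨Encodable.encode d + 1 + max k1 k2,
      ((Encodable.encode d, pre z (max k1 k2)), (d, ((sel d).1.map z, r))),
      ⟨⟨(tg_pre _ _ _).symm, rfl⟩, ?_⟩, hr, ?_⟩
    · simp only
      rw [read_pre]
      exact ⟨fun i hi => lt_of_lt_of_le (hk1 i hi) (le_max_left _ _), rfl⟩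
    · unfold Out tag
      simp only
      rcases lt_trichotomy n (Encodable.encode d) with h1 | h1 | h1
      · left
        left
        exact ⟨h1, by rw [if_pos h1]; rfl⟩
      · left
        right
        exact ⟨h1, by rw [if_neg (by omega), if_pos h1]; rfl⟩
      · right
        refine ⟨h1, ?_⟩
        rw [if_neg (by omega), if_neg (by omega)]
        exact PS_mono (le_max_right _ _) hk2

end Pool.Agent.H.MP_8387fc_lc.BA
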