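import Mathlib
import Pool.Agent.H.MP_8387fc_lc.BA.Univ

/-!
Functions with bounded ambiguity along the tagging maps.
-/

set_option linter.all false

namespace Pool.Agent.H.MP_8387fc_lc.BA

open Nat.Partrec (Code)
open Pool.Agent.H.MP_95c08c_lc

/-- For `z` in `S`, the reals `f z` and `f (1^p 0 z)` compute each other via one of at most `K₁`
(respectively `K₃`) indices in lists which are computable from `p`, relative to `a`. -/
def TagBounded (a : ℕ → Bool) (K₁ K₃ : ℕ) (S : Set (ℕ → Bool)) (f : (ℕ → Bool) → ℕ → Bool) :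
    Prop :=
  ∃ P Q : ℕ → List ℕ, ComputableIn {orc a} P ∧ ComputableIn {orc a} Q ∧
    (∀ p, (P p).length ≤ K₁) ∧ (∀ p, (Q p).length ≤ K₃) ∧
    ∀ z ∈ S, ∀ p, (∃ e ∈ P p, Via e (f z) (f (tag p z))) ∧ ∃ e ∈ Q p, Via e (f (tag p z)) (f z)

/-- `K` indices suffice for the pair `(i, j)`. -/
def PairBounded (K i j : ℕ) (S : Set (ℕ → Bool)) (f : (ℕ → Bool) → ℕ → Bool) : Prop :=
  ∃ R : List ℕ, R.length ≤ K ∧ ∀ x ∈ S, ∀ y ∈ S, Via i x y → Via j y x →
    ∃ e ∈ R, Via e (f x) (f y)

theorem length_prod {α β : Type} (l : List α) (r : List β) :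
    (l.product r).length = l.length * r.length := List.length_product l r

theorem tag_mem_deg {x z : ℕ → Bool} (h : z ∈ deg x) (p : ℕ) : tag p z ∈ deg x :=
  mem_deg_trans h ⟨red_tag p z, tag_red p z⟩

theorem exists_code_of_primrec {t : List Bool → ℕ} (ht : Primrec t) :
    ∃ e : ℕ, ∀ c, t c ∈ Code.eval (Denumerable.ofNat Code e) (Encodable.encode c) := by
  obtain ⟨c, hc⟩ := Code.exists_code.1 (ht.to_comp.partrec)
  refine ⟨Encodable.encode c, fun x => ?_⟩
  rw [Denumerable.ofNat_encode, hc]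
  simp only [Encodable.encodek, Part.coe_some, Part.bind_some, Part.mem_map_iff]
  exact ⟨t x, Part.mem_some _, rfl⟩

theorem primrec_triples {c : ℕ → ℕ → ℕ} (hc : Primrec₂ c) (R : List ℕ) :
    Primrec fun x : List ℕ × List ℕ =>
      ((x.1.product R).product x.2).map fun e => c (c e.1.1 e.1.2) e.2 := by
  have h1 : Primrec fun x : List ℕ × List ℕ => x.1.product x.2 := by
    have : Primrec fun x : List ℕ × List ℕ => x.1.flatMap fun a => x.2.map (Prod.mk a) := by
      refine Primrec.list_flatMap Primrec.fst ?_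
      refine Primrec.list_map (Primrec.snd.comp Primrec.fst) ?_
      exact ((Primrec.snd.comp Primrec.fst).pair Primrec.snd).to₂
    exact this
  have h2 : Primrec fun x : List (ℕ × ℕ) × List ℕ => x.1.product x.2 := by
    have : Primrec fun x : List (ℕ × ℕ) × List ℕ => x.1.flatMap fun a => x.2.map (Prod.mk a) := by
      refine Primrec.list_flatMap Primrec.fst ?_
      refine Primrec.list_map (Primrec.snd.comp Primrec.fst) ?_
      exact ((Primrec.snd.comp Primrec.fst).pair Primrec.snd).to₂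
    exact this
  refine Primrec.list_map (h2.comp ((h1.comp (Primrec.fst.pair (Primrec.const R))).pair
    Primrec.snd)) ?_
  have h3 : Primrec fun y : (List ℕ × List ℕ) × ((ℕ × ℕ) × ℕ) =>
      c (c y.2.1.1 y.2.1.2) y.2.2 :=
    hc.comp (hc.comp (Primrec.fst.comp (Primrec.fst.comp Primrec.snd))
      (Primrec.snd.comp (Primrec.fst.comp Primrec.snd))) (Primrec.snd.comp Primrec.snd)
  exact h3.to₂

theorem computableIn_pair {a : ℕ → Bool} {P Q : ℕ → List ℕ} (hP : ComputableIn {orc a} P)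
    (hQ : ComputableIn {orc a} Q) {p : List ℕ → ℕ} (hp : Primrec p)
    {G : List ℕ × List ℕ → List ℕ} (hG : Primrec G) :
    ComputableIn {orc a} fun m : List ℕ => G (P (p m), Q (p m)) := by
  have h1 : CEIn a (fun x : ℕ × List ℕ => x.2 ∈ Part.some (P x.1)) :=
    CEIn.graph (α := ℕ) (β := List ℕ) (f := fun n => Part.some (P n)) hP
  have h2 : CEIn a (fun x : ℕ × List ℕ => x.2 ∈ Part.some (Q x.1)) :=
    CEIn.graph (α := ℕ) (β := List ℕ) (f := fun n => Part.some (Q n)) hQ
  have h3 : CEIn a (fun x : List ℕ × List ℕ => ∃ l : List ℕ × List ℕ,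
      l.1 ∈ Part.some (P (p x.1)) ∧ (l.2 ∈ Part.some (Q (p x.1)) ∧ G l = x.2)) := by
    apply CEIn.ex (S := fun x : (List ℕ × List ℕ) × (List ℕ × List ℕ) =>
      x.2.1 ∈ Part.some (P (p x.1.1)) ∧ (x.2.2 ∈ Part.some (Q (p x.1.1)) ∧ G x.2 = x.1.2))
    have g1 : Primrec fun x : (List ℕ × List ℕ) × (List ℕ × List ℕ) => p x.1.1 :=
      hp.comp (Primrec.fst.comp Primrec.fst)
    refine CEIn.and ?_ (CEIn.and ?_ (CEIn.of_primrec ?_))
    · exact h1.comp (g1.pair (Primrec.fst.comp Primrec.snd))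
    · exact h2.comp (g1.pair (Primrec.snd.comp Primrec.snd))
    · exact Primrec.eq.comp (hG.comp Primrec.snd) (Primrec.snd.comp Primrec.fst)
  have h4 : CEIn a (fun x : List ℕ × List ℕ => x.2 ∈ Part.some (G (P (p x.1), Q (p x.1)))) := by
    refine h3.of_eq fun x => ?_
    constructor
    · rintro ⟨⟨l, l'⟩, h5, h6, h7⟩
      simp only at h5 h6
      rw [Part.mem_some_iff] at h5 h6
      subst h5
      subst h6
      rw [← h7]
      exact Part.mem_some _
    · intro h
      exact ⟨(_, _), Part.mem_some _, Part.mem_some _, (Part.mem_some_iff.1 h).symm⟩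
  exact recursiveIn_of_ceIn h4

/-- The main theorem on one degree. -/
theorem tag_theorem : ∃ i j : ℕ, ∀ (a : ℕ → Bool) (K₁ K₂ K₃ : ℕ) (x : ℕ → Bool)
    (f : (ℕ → Bool) → ℕ → Bool), TagBounded a K₁ K₃ (deg x) f → PairBounded K₂ i j (deg x) f →
      ∀ y ∈ deg x, Red y (join (f y) a) ∨ (f '' deg x).encard ≤ (K₁ * K₂ * K₃ : ℕ) := by
  classical
  obtain ⟨i, hi⟩ := exists_univ (sel := fun d => d.1) Primrec.fst
  obtain ⟨j, hj⟩ := exists_univ (sel := fun d => d.2) Primrec.snd
  obtain ⟨c, hc, hcc⟩ := exists_comp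
  refine ⟨i, j, fun a K₁ K₂ K₃ x f hT hP z hz => ?_⟩
  by_cases hval : (f '' deg x).encard ≤ (K₁ * K₂ * K₃ : ℕ)
  · exact Or.inr hval
  left
  set K := K₁ * K₂ * K₃ with hK
  obtain ⟨P, Q, hPc, hQc, hPl, hQl, hPQ⟩ := hT
  obtain ⟨R, hRl, hR⟩ := hP
  obtain ⟨e, he, hes⟩ := exists_inj' hval
  choose y hy hfy using hes
  -- the targets
  let Y : ℕ → ℕ → Bool := fun n => if h : n < K + 1 then y ⟨n, h⟩ else x
  have hYd : ∀ n, Y n ∈ deg x := by
    intro n
    by_cases h : n < K + 1
    · simp only [Y, dif_pos h]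
      exact hy _
    · simp only [Y, dif_neg h]
      exact mem_deg_self x
  have hYi : ∀ n < K + 1, ∀ n' < K + 1, f (Y n) = f (Y n') → n = n' := by
    intro n hn n' hn' h
    simp only [Y, dif_pos hn, dif_pos hn', hfy] at h
    exact congrArg Fin.val (he h)
  have hzY : ∀ n, ∃ r, Via r z (Y n) := fun n =>
    via_of_red ((mem_deg_trans (mem_deg_symm hz) (hYd n)).2)
  have hYz : ∀ n, ∃ r, Via r (Y n) z := fun n =>
    via_of_red ((mem_deg_trans (mem_deg_symm hz) (hYd n)).1)
  choose ia hia using hzY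
  choose ib hib using hYz
  set T : Finset ℕ := Finset.range (K + 1) with hTdef
  have hTm : ∀ n, n ∈ T ↔ n < K + 1 := fun n => by simp [hTdef]
  obtain ⟨ta, hta, hta2⟩ := exists_table (α := ℕ) (β := ℕ) 0 (fun n => n) ia T
    (fun n _ n' _ h => h)
  obtain ⟨L1, hL1⟩ := exists_sep Y T (fun n hn n' hn' h =>
    hYi n ((hTm n).1 hn) n' ((hTm n').1 hn') (by rw [h]))
  obtain ⟨tb, htb, htb2⟩ := exists_table (α := List Bool) (β := ℕ) 0 (fun n => pre (Y n) L1) ib T
    (fun n hn n' hn' h => hL1 n hn n' hn' (pre_inj h))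
  obtain ⟨eb, heb⟩ := exists_code_of_primrec htb
  refine core (K := K) (fun n => f (Y n)) (fun n hn n' hn' h => hYi n hn n' hn' h) ?_
  intro F hF hFlt
  obtain ⟨ea, hea⟩ := exists_code_of_primrec (hta.comp hF)
  -- the data
  let dd : List ℕ → Data := fun m => ((m, ea), (List.range L1, eb))
  have hdd : Primrec fun m : List ℕ => Encodable.encode (dd m) :=
    Primrec.encode.comp ((Primrec.id.pair (Primrec.const ea)).pair
      (Primrec.const (List.range L1, eb)))
  refine ⟨fun m => (((P (Encodable.encode (dd m))).product R).product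
    (Q (Encodable.encode (dd m)))).map fun e => c (c e.1.1 e.1.2) e.2, ?_, ?_, ?_⟩
  · exact computableIn_pair hPc hQc hdd (primrec_triples hc R)
  · intro m
    rw [List.length_map, length_prod, length_prod]
    exact Nat.mul_le_mul (Nat.mul_le_mul (hPl _) hRl) (hQl _)
  · intro m hm
    set n := F (m.map z) with hn
    have hnlt : n < K + 1 := hFlt _
    set p := Encodable.encode (dd m) with hp
    have v1 : Via i (tag p z) (tag p (Y n)) := by
      refine hi (dd m) (ia n) z (Y n) ?_ (hia n)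
      have h1 := hea (m.map z)
      rw [← hn, hta2 n ((hTm n).2 hnlt)] at h1
      exact h1
    have v2 : Via j (tag p (Y n)) (tag p z) := by
      refine hj (dd m) (ib n) (Y n) z ?_ (hib n)
      have h1 := heb (pre (Y n) L1)
      rw [htb2 n ((hTm n).2 hnlt)] at h1
      exact h1
    obtain ⟨e1, he1, w1⟩ := (hPQ z hz p).1
    obtain ⟨e2, he2, w2⟩ := hR _ (tag_mem_deg hz p) _ (tag_mem_deg (hYd n) p) v1 v2
    obtain ⟨e3, he3, w3⟩ := (hPQ (Y n) (hYd n) p).2
    refine ⟨c (c e1 e2) e3, ?_, hcc _ _ _ _ _ (hcc _ _ _ _ _ w1 w2) w3⟩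
    refine List.mem_map.2 ⟨((e1, e2), e3), ?_, rfl⟩
    exact List.mem_product.2 ⟨List.mem_product.2 ⟨he1, he2⟩, he3⟩

/-- The real which consists of the bit `b` and the real `z`. -/
def cns (b : Bool) (z : ℕ → Bool) : ℕ → Bool := fun n => if n = 0 then b else z (n - 1)

theorem tag_zero (z : ℕ → Bool) : tag 0 z = cns false z := by
  funext n
  simp [tag, cns]

theorem tag_succ (p : ℕ) (z : ℕ → Bool) : tag (p + 1) z = cns true (tag p z) := by
  funext n
  simp only [tag, cns]
  by_cases h0 : n = 0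
  · subst h0
    simp
  · rw [if_neg h0]
    by_cases h1 : n < p + 1
    · rw [if_pos h1, if_pos (by omega)]
    · by_cases h2 : n = p + 1
      · rw [if_neg h1, if_pos h2, if_neg (by omega), if_pos (by omega)]
      · rw [if_neg h1, if_neg h2, if_neg (by omega), if_neg (by omega)]
        congr 1
        omega

/-- `f` is uniform for the maps which put one bit in front of a real, and for their inverses. -/
def ShiftUniform (S : Set (ℕ → Bool)) (f : (ℕ → Bool) → ℕ → Bool) : Prop :=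
  ∃ e d : Bool → ℕ, ∀ z ∈ S, ∀ b, Via (e b) (f z) (f (cns b z)) ∧ Via (d b) (f (cns b z)) (f z)

theorem ShiftUniform.tagBounded {x : ℕ → Bool} {f : (ℕ → Bool) → ℕ → Bool}
    (h : ShiftUniform (deg x) f) (a : ℕ → Bool) : TagBounded a 1 1 (deg x) f := by
  obtain ⟨e, d, hed⟩ := h
  obtain ⟨c, hc, hcc⟩ := exists_comp
  let P0 : ℕ → ℕ := fun p => Nat.rec (e false) (fun _ r => c r (e true)) p
  let Q0 : ℕ → ℕ := fun p => Nat.rec (d false) (fun _ r => c (d true) r) p
  have hP0 : Primrec P0 := Primrec.nat_rec₁ (e false)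
    ((hc.comp Primrec.snd (Primrec.const (e true))).to₂ : Primrec₂ fun _ r : ℕ => c r (e true))
  have hQ0 : Primrec Q0 := Primrec.nat_rec₁ (d false)
    ((hc.comp (Primrec.const (d true)) Primrec.snd).to₂ : Primrec₂ fun _ r : ℕ => c (d true) r)
  refine ⟨fun p => [P0 p], fun p => [Q0 p],
    (Primrec.list_cons.comp hP0 (Primrec.const [])).computableIn,
    (Primrec.list_cons.comp hQ0 (Primrec.const [])).computableIn, by simp, by simp, ?_⟩
  intro z hz p
  simp only [List.mem_singleton, exists_eq_left]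
  induction p with
  | zero =>
    rw [tag_zero]
    exact hed z hz false
  | succ p ih =>
    rw [tag_succ]
    have h1 := hed (tag p z) (tag_mem_deg hz p) true
    exact ⟨hcc _ _ _ _ _ ih.1 h1.1, hcc _ _ _ _ _ h1.2 ih.2⟩

end Pool.Agent.H.MP_8387fc_lc.BA
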