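import Mathlib
import Pool.Agent.H.MP_8387fc_lc.BA.Main
import Pool.Agent.H.MP_8387fc_lc.BA.Shift

/-!
Functions with bounded ambiguity, and functions with finite ambiguity for one pair of indices.
-/

set_option linter.all false

namespace Pool.Agent.H.MP_8387fc_lc.BA

open Nat.Partrec (Code)
open Pool.Agent.H.MP_95c08c_lc

theorem shift_theorem : ∃ i j : ℕ, ∀ (K : ℕ) (x : ℕ → Bool) (f : (ℕ → Bool) → ℕ → Bool),
    ShiftUniform (deg x) f → PairBounded K i j (deg x) f → ∀ y ∈ deg x,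
      Red y (f y) ∨ (f '' deg x).encard ≤ K := by
  obtain ⟨i, j, hij⟩ := tag_theorem
  refine ⟨i, j, ?_⟩
  intro K x f hT hP y hy
  rcases hij (fun _ => false) 1 K 1 x f (hT.tagBounded _) hP y hy with h | h
  · exact Or.inl (red_of_join (Computable.const false) h)
  · right
    simpa using h

/-- The hypothesis for the degree of `x`: the function `f` has ambiguity at most `K` on the part
`S ∩ deg x` of the degree, relative to a real computable from `f x ⊕ a`, or it is shift uniform on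
the degree and `K` indices suffice there for the one pair `(i, j)`. -/
def FewAnswers (i j : ℕ) (a : ℕ → Bool) (K : ℕ) (S : Set (ℕ → Bool))
    (f : (ℕ → Bool) → ℕ → Bool) (x : ℕ → Bool) : Prop :=
  (∃ u, Red u (join (f x) a) ∧ AmbiguousIn u K (S ∩ deg x) f) ∨
    (ShiftUniform (deg x) f ∧ PairBounded K i j (deg x) f)

theorem final : ∃ i j : ℕ,
    (∀ (a : ℕ → Bool) (K : ℕ) (S : Set (ℕ → Bool)) (f : (ℕ → Bool) → ℕ → Bool), ∀ x ∈ S,
      FewAnswers i j a K S f x →
        (Red x (join (f x) a) ∧ (Computable a → Red x (f x))) ∨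
          (f '' (S ∩ deg x)).encard ≤ K) ∧
    (∀ (a : ℕ → Bool) (K : ℕ) (x : ℕ → Bool) (S : Set (ℕ → Bool))
      (f : (ℕ → Bool) → ℕ → Bool), S ⊆ deg x → (∀ y ∈ S, ∀ z ∈ S, f z ∈ deg (f y)) →
      (∀ y ∈ S, ¬ Red y (join (f y) a)) → (AmbiguousIn a K S f ↔ (f '' S).encard ≤ K)) ∧
    ∀ Γ : Set (Set (ℕ → Bool)), TuringDetermined Γ →
      ∀ (a b : ℕ → Bool) (S : Set (ℕ → Bool)) (f : (ℕ → Bool) → ℕ → Bool),
        (∀ x ∈ cone b, ∀ y ∈ deg x, f y ∈ deg (f x)) →
        (∀ x ∈ cone b, (S ∩ deg x).Nonempty) →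
        (∀ c, ∃ x ∈ cone c, ∃ K, FewAnswers i j a K S f x) →
        {x | x ∈ cone b ∧ Red x (join (f x) a)} ∈ Γ →
        (∀ σ : List Bool,
          {x | x ∈ cone b ∧ ∃ y ∈ S ∩ deg x, pre (f y) σ.length = σ} ∈ Γ) →
        (∃ b', ∀ x ∈ cone b', Red x (join (f x) a) ∧ (Computable a → Red x (f x))) ∨
          ∃ c b', ∀ x ∈ cone b', f x ∈ deg c := by
  obtain ⟨i, j, hij⟩ := shift_theorem
  have hloc : ∀ (a : ℕ → Bool) (K : ℕ) (S : Set (ℕ → Bool)) (f : (ℕ → Bool) → ℕ → Bool), ∀ x ∈ S,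
      FewAnswers i j a K S f x → Red x (join (f x) a) ∨ (f '' (S ∩ deg x)).encard ≤ K := by
    intro a K S f x hx h
    rcases h with ⟨u, hu, h⟩ | ⟨hT, hP⟩
    · rcases local_relative h (show x ∈ S ∩ deg x from ⟨hx, mem_deg_self x⟩) with h5 | h5
      · exact Or.inl (h5.trans (join_red (red_join_left _ _) hu))
      · right
        rwa [Set.inter_assoc, Set.inter_self] at h5
    · rcases hij K x f hT hP x (mem_deg_self x) with h5 | h5
      · exact Or.inl (h5.trans (red_join_left _ _))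
      · exact Or.inr ((Set.encard_le_encard (Set.image_mono Set.inter_subset_right)).trans h5)
  refine ⟨i, j, ?_, fun a K x S f h1 h2 h3 => ambiguous_iff h1 h2 h3, ?_⟩
  · intro a K S f x hx h
    rcases hloc a K S f x hx h with h5 | h5
    · exact Or.inl ⟨h5, fun ha => red_of_join ha h5⟩
    · exact Or.inr h5
  · intro Γ hΓ a b S f hinv hS hf h1 h2
    have h3 : ∀ c, ∃ x ∈ cone c, ∀ y ∈ S ∩ deg x,
        Red y (join (f y) a) ∨ (f '' (S ∩ deg x)).Finite := by
      intro c
      obtain ⟨x, hxc, K, hK⟩ := hf (join b c)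
      have hx : x ∈ cone b := (red_join_left b c).trans hxc
      refine ⟨x, (red_join_right b c).trans hxc, ?_⟩
      intro y hy
      have h4 : FewAnswers i j a K S f y := by
        rcases hK with ⟨u, hu, h⟩ | h
        · left
          refine ⟨u, hu.trans (join_red ?_ (red_join_right _ _)), ?_⟩
          · exact (hinv x hx y hy.2).1.trans (red_join_left _ _)
          · rwa [deg_eq hy.2]
        · right
          rwa [deg_eq hy.2]
      rcases hloc a K S f y hy.1 h4 with h5 | h5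
      · exact Or.inl h5
      · right
        rw [deg_eq hy.2] at h5
        exact Set.finite_of_encard_le_coe h5
    rcases cone_general hΓ hinv hS h3 h1 h2 with ⟨b', h⟩ | h
    · exact Or.inl ⟨b', fun x hx => ⟨h x hx, fun ha => red_of_join ha (h x hx)⟩⟩
    · exact Or.inr h

end Pool.Agent.H.MP_8387fc_lc.BA
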